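import Mathlib

/-!
# Harmonic analysis on a homogeneous space: definitions

`G` is a locally compact group, `X` a space on which it acts, `m` an invariant measure on `X`, `μ` a
Haar measure on `G`. `tr g` is the translation on `L²(X)`, `cv f F` the convolution of `f` on `G`
with `F` on `X`.
-/

set_option autoImplicit false

open MeasureTheory Topology
open scoped ENNReal NNReal ComplexConjugate InnerProductSpace

namespace Pool.Agent.MPabcfcd.Har

section defs

variable {G X : Type} [Group G] [TopologicalSpace G] [IsTopologicalGroup G] [MeasurableSpace G]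
  [BorelSpace G] [TopologicalSpace X] [MeasurableSpace X] [BorelSpace X] [MulAction G X]
  [ContinuousSMul G X]

/-- The translation `φ ↦ (x ↦ φ (g⁻¹ x))` on `L²(X)`. -/
noncomputable def tr (m : Measure X) [SMulInvariantMeasure G X m] (g : G) :
    Lp ℂ 2 m →ₗᵢ[ℂ] Lp ℂ 2 m :=
  Lp.compMeasurePreservingₗᵢ ℂ (fun x => g⁻¹ • x) (measurePreserving_smul g⁻¹ m)

/-- Closed invariant subspaces. -/
structure IsInv (G : Type) {X : Type} [Group G] [TopologicalSpace G] [IsTopologicalGroup G]
    [MeasurableSpace G] [BorelSpace G] [TopologicalSpace X] [MeasurableSpace X] [BorelSpace X]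
    [MulAction G X] [ContinuousSMul G X] (m : Measure X) [SMulInvariantMeasure G X m]
    (W : Submodule ℂ (Lp ℂ 2 m)) : Prop where
  closed : IsClosed (W : Set (Lp ℂ 2 m))
  inv : ∀ (g : G), ∀ φ ∈ W, tr m g φ ∈ W

/-- The closed invariant subspace generated by a vector. -/
noncomputable def gen (G : Type) {X : Type} [Group G] [TopologicalSpace G] [IsTopologicalGroup G]
    [MeasurableSpace G] [BorelSpace G] [TopologicalSpace X] [MeasurableSpace X] [BorelSpace X]
    [MulAction G X] [ContinuousSMul G X] (m : Measure X) [SMulInvariantMeasure G X m]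
    (v : Lp ℂ 2 m) : Submodule ℂ (Lp ℂ 2 m) :=
  (Submodule.span ℂ (Set.range fun g : G => tr m g v)).topologicalClosure

/-- The convolution of a function on `G` with a function on `X`. -/
noncomputable def cv (μ : Measure G) (f : G → ℂ) (F : X → ℂ) (x : X) : ℂ :=
  ∫ g, f g * F (g⁻¹ • x) ∂μ

/-- The operator `T` on `L²(X)` is the convolution with `f`. -/
def RepT (μ : Measure G) (m : Measure X) (f : G → ℂ) (T : Lp ℂ 2 m →L[ℂ] Lp ℂ 2 m) : Prop :=
  ∀ φ : Lp ℂ 2 m, T φ =ᵐ[m] cv μ f φ

/-- The orbit maps are locally finite to one, in terms of measures. -/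
def Loc (μ : Measure G) (m : Measure X) : Prop :=
  ∀ (Ω : Set G) (C : Set X), IsCompact Ω → IsCompact C → ∃ N : ℝ≥0, ∀ h : X → ℝ≥0∞, Measurable h →
    ∀ x ∈ C, ∫⁻ g in Ω, h (g⁻¹ • x) ∂μ ≤ N * ∫⁻ y, h y ∂m

/-- The orbit maps are open. -/
def OpenAct (G X : Type) [Group G] [TopologicalSpace G] [TopologicalSpace X] [MulAction G X] :
    Prop :=
  ∀ (x : X), ∀ U ∈ 𝓝 (1 : G), {y : X | ∃ g ∈ U, y = g • x} ∈ 𝓝 x

/-- Far out in `X` every point is fixed by a product of an element near `1` and of an element of `L`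
where the character is not trivial. -/
def Cusp (X : Type) [TopologicalSpace X] [MulAction G X] (L : Set G) (χ : G → ℂ) : Prop :=
  ∃ c : ℝ, 0 < c ∧ ∀ U ∈ 𝓝 (1 : G), ∃ C : Set X, IsCompact C ∧ ∀ x, x ∉ C →
    ∃ u ∈ U, ∃ l ∈ L, (u * l) • x = x ∧ c ≤ ‖χ l - 1‖

/-- There are self-adjoint functions on `G` with small support modulo `L` which transform under `L`
by the character. -/
def Bumps (L : Set G) (χ : G → ℂ) : Prop :=
  ∀ U ∈ 𝓝 (1 : G), ∃ f : G → ℂ, Continuous f ∧ HasCompactSupport f ∧ f ≠ 0 ∧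
    (∀ g, conj (f g⁻¹) = f g) ∧ (∀ l ∈ L, ∀ g, f (l⁻¹ * g) = χ l * f g) ∧
    ∀ g, f g ≠ 0 → ∃ u ∈ U, ∃ l ∈ L, g = u * l ∧ f g = ‖f g‖ * (χ l)⁻¹

/-- A period: a compact measure space with a continuous map to `X` and a continuous weight. -/
structure Cyc (X : Type) [TopologicalSpace X] where
  /-- the space -/
  Y : Type
  top : TopologicalSpace Y
  cpt : CompactSpace Y
  ms : MeasurableSpace Y
  bs : BorelSpace Y
  /-- the measure -/
  ν : Measure Y
  fin : IsFiniteMeasure ν
  /-- the map to `X` -/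
  j : Y → X
  hj : Continuous j
  /-- the weight -/
  w : Y → ℂ
  hw : Continuous w

attribute [instance] Cyc.top Cyc.cpt Cyc.ms Cyc.bs Cyc.fin

/-- The period of a function, translated by `g`. -/
noncomputable def Cyc.per (c : Cyc X) (F : X → ℂ) (g : G) : ℂ :=
  ∫ y, F (g⁻¹ • c.j y) * c.w y ∂c.ν

end defs

end Pool.Agent.MPabcfcd.Har
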