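import Pool.Agent.Lib.MP_abcfcd_nt.A.CvT

/-!
# The convolution on compact sets is approximated by operators of finite rank

PROOF. By `equicont` for `C` there is a neighbourhood `U` of `1` with
`‖cv f φ (h x) - cv f φ x‖ ≤ ε ‖φ‖` for `h ∈ U`, `x ∈ C`. By `OpenAct` (and compactness of `C`)
finitely many sets `U • x_i`, `x_i ∈ C`, cover `C`; choose open sets `x_i ∈ V_i ⊆ U • x_i` covering
`C` and disjoint measurable sets `A_i ⊆ V_i` with union `⊇ C` (`disjointed`). Put
`S φ = ∑ i, (cv f φ x_i) • 1_{A_i ∩ C}` in `L²` (`indicatorConstLp`). The functional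
`φ ↦ cv f φ x_i` is linear (`cv_add`, `cv_smul`) and bounded (`cv_bound`), so `S` is a continuous
linear map with finite-dimensional range, hence compact. On `A_i ∩ C` we have
`|cv f φ x - cv f φ x_i| ≤ ε ‖φ‖` (`x = h x_i`, `h ∈ U`). The operator `R φ` is the truncation
`1_C T φ`: `‖R φ - S φ‖ ≤ ε m(C)^(1/2) ‖φ‖`; replace `ε` by `ε / (m(C)^(1/2) + 1)`.
-/

set_option autoImplicit false

open MeasureTheory Topology
open scoped ENNReal NNReal ComplexConjugate InnerProductSpace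

namespace Pool.Agent.MPabcfcd.Har

variable {G X : Type} [Group G] [TopologicalSpace G] [IsTopologicalGroup G] [LocallyCompactSpace G]
  [T2Space G] [SecondCountableTopology G] [MeasurableSpace G] [BorelSpace G]
  [TopologicalSpace X] [LocallyCompactSpace X] [T2Space X] [SecondCountableTopology X]
  [MeasurableSpace X] [BorelSpace X] [MulAction G X] [ContinuousSMul G X]
  {μ : Measure G} [μ.IsHaarMeasure] [μ.IsMulRightInvariant] [μ.IsInvInvariant]
  {m : Measure X} [IsFiniteMeasureOnCompacts m] [SMulInvariantMeasure G X m]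

omit [Group G] [TopologicalSpace G] [IsTopologicalGroup G] [LocallyCompactSpace G] [T2Space G]
  [SecondCountableTopology G] [MeasurableSpace G] [BorelSpace G] [TopologicalSpace X]
  [LocallyCompactSpace X] [T2Space X] [SecondCountableTopology X] [BorelSpace X] [MulAction G X]
  [ContinuousSMul G X] [IsFiniteMeasureOnCompacts m] [SMulInvariantMeasure G X m] in
private theorem cptB_coe_sum {n : ℕ} (s : Finset (Fin n)) (c : Fin n → ℂ)
    (v : Fin n → Lp ℂ 2 m) :
    ((∑ i ∈ s, c i • v i : Lp ℂ 2 m) : X → ℂ) =ᵐ[m] fun x => ∑ i ∈ s, c i * v i x := by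
  classical
  induction s using Finset.induction_on with
  | empty =>
    simp only [Finset.sum_empty]
    exact Lp.coeFn_zero ℂ 2 m
  | insert i s hi ih =>
    rw [Finset.sum_insert hi]
    filter_upwards [Lp.coeFn_add (c i • v i) (∑ i ∈ s, c i • v i), Lp.coeFn_smul (c i) (v i),
      ih] with x h1 h2 h3
    rw [h1, Pi.add_apply, h2, h3, Finset.sum_insert hi, Pi.smul_apply, smul_eq_mul]

omit [Group G] [TopologicalSpace G] [IsTopologicalGroup G] [LocallyCompactSpace G] [T2Space G]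
  [SecondCountableTopology G] [MeasurableSpace G] [BorelSpace G] [TopologicalSpace X]
  [LocallyCompactSpace X] [T2Space X] [SecondCountableTopology X] [BorelSpace X] [MulAction G X]
  [ContinuousSMul G X] [IsFiniteMeasureOnCompacts m] [SMulInvariantMeasure G X m] in
private theorem cptB_compact {n : ℕ} (s : Finset (Fin n)) (l : Fin n → (Lp ℂ 2 m →L[ℂ] ℂ))
    (v : Fin n → Lp ℂ 2 m) :
    IsCompactOperator (∑ i ∈ s, (l i).smulRight (v i) : Lp ℂ 2 m →L[ℂ] Lp ℂ 2 m) := by
  classical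
  induction s using Finset.induction_on with
  | empty =>
    rw [Finset.sum_empty]
    exact isCompactOperator_zero
  | insert i s hi ih =>
    rw [Finset.sum_insert hi]
    have h1 : IsCompactOperator (l i) :=
      ⟨Metric.closedBall 0 1, isCompact_closedBall 0 1,
        (l i).continuous.continuousAt.preimage_mem_nhds (by
          rw [map_zero]
          exact Metric.closedBall_mem_nhds 0 one_pos)⟩
    have h2 : IsCompactOperator ((l i).smulRight (v i)) := by
      have h3 := h1.clm_comp ((ContinuousLinearMap.id ℂ ℂ).smulRight (v i))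
      exact h3
    exact h2.add ih

theorem near_fin (hl : Loc μ m) (ho : OpenAct G X) {f : G → ℂ} (hf : Continuous f)
    (hfc : HasCompactSupport f) {C : Set X} (hC : IsCompact C) {ε : ℝ} (hε : 0 < ε) :
    ∃ S : Lp ℂ 2 m →L[ℂ] Lp ℂ 2 m, IsCompactOperator S ∧ ∀ φ : Lp ℂ 2 m,
      (∀ᵐ x ∂m, x ∉ C → S φ x = 0) ∧
      ∫⁻ x in C, ‖cv μ f φ x - S φ x‖ₑ ^ 2 ∂m ≤ ENNReal.ofReal (ε ^ 2 * ‖φ‖ ^ 2) := by
  set a : ℝ := (m C).toReal with ha
  have ha0 : 0 ≤ a := ENNReal.toReal_nonneg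
  have hCf : m C ≠ ⊤ := hC.measure_lt_top.ne
  set δ : ℝ := ε / (a + 1) with hδdef
  have hδ : 0 < δ := div_pos hε (by linarith)
  have hδa : δ ^ 2 * a ≤ ε ^ 2 := by
    rw [hδdef, div_pow, div_mul_eq_mul_div, div_le_iff₀ (by positivity)]
    have : a ≤ (a + 1) ^ 2 := by nlinarith
    exact mul_le_mul_of_nonneg_left this (sq_nonneg ε)
  obtain ⟨U, hU, hU1⟩ := equicont (m := m) hl hf hfc hC hδ
  obtain ⟨M, hM, hM1⟩ := cv_bound hl hf hfc hC
  obtain ⟨t, ht, hCt⟩ := hC.elim_nhds_subcover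
    (fun x => interior {y | ∃ g ∈ U, y = g • x}) (fun x _ => interior_mem_nhds.2 (ho x U hU))
  set p : Fin t.card → X := fun i => (t.equivFin.symm i : X) with hp
  have hpC : ∀ i, p i ∈ C := fun i => ht _ (t.equivFin.symm i).2
  set V : Fin t.card → Set X := fun i => interior {y | ∃ g ∈ U, y = g • p i} with hV
  set A : Fin t.card → Set X := fun i => C ∩ disjointed V i with hA
  have hCm : MeasurableSet C := hC.isClosed.measurableSet
  have hVm : ∀ i, MeasurableSet (V i) := fun i => isOpen_interior.measurableSet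
  have hAm : ∀ i, MeasurableSet (A i) := by
    intro i
    refine hCm.inter ?_
    rw [disjointed_apply, Finset.sup_set_eq_biUnion]
    exact (hVm i).diff (Finset.measurableSet_biUnion _ fun j _ => hVm j)
  have hAf : ∀ i, m (A i) ≠ ⊤ := fun i =>
    ne_top_of_le_ne_top hCf (measure_mono Set.inter_subset_left)
  have hAd : ∀ i j, i ≠ j → ∀ x, x ∈ A i → x ∉ A j := by
    intro i j hij x hi hj
    exact Set.disjoint_left.1 (disjoint_disjointed V hij) hi.2 hj.2
  have hAU : ∀ x ∈ C, ∃ i, x ∈ A i := by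
    intro x hx
    have h1 := hCt hx
    simp only [Set.mem_iUnion] at h1
    obtain ⟨y, hy, hxy⟩ := h1
    have h2 : x ∈ ⋃ i, V i := by
      rw [Set.mem_iUnion]
      refine ⟨t.equivFin ⟨y, hy⟩, ?_⟩
      simp only [hV, hp, Equiv.symm_apply_apply]
      exact hxy
    rw [← iUnion_disjointed, Set.mem_iUnion] at h2
    obtain ⟨i, hi⟩ := h2
    exact ⟨i, hx, hi⟩
  have hAV : ∀ i x, x ∈ A i → ∃ g ∈ U, x = g • p i := by
    intro i x hx
    have h1 : x ∈ V i := disjointed_subset V i hx.2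
    have h2 : x ∈ {y | ∃ g ∈ U, y = g • p i} := interior_subset h1
    exact h2
  set l : Fin t.card → (Lp ℂ 2 m →L[ℂ] ℂ) := fun i => LinearMap.mkContinuous
    { toFun := fun φ => cv μ f φ (p i)
      map_add' := fun φ ψ => cv_add hl hf hfc φ ψ (p i)
      map_smul' := fun c φ => cv_smul hl hfc c φ (p i) } M (fun φ => hM1 φ (p i) (hpC i))
    with hl'
  have hlap : ∀ i φ, l i φ = cv μ f φ (p i) := fun i φ => rfl
  set v : Fin t.card → Lp ℂ 2 m := fun i => indicatorConstLp 2 (hAm i) (hAf i) (1 : ℂ) with hv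
  refine ⟨∑ i, (l i).smulRight (v i), cptB_compact Finset.univ l v, fun φ => ?_⟩
  have hS : (∑ i, (l i).smulRight (v i) : Lp ℂ 2 m →L[ℂ] Lp ℂ 2 m) φ = ∑ i, l i φ • v i := by
    rw [sum_apply]
    rfl
  have hvi : ∀ᵐ x ∂m, ∀ i, v i x = (A i).indicator (fun _ => (1 : ℂ)) x := by
    rw [ae_all_iff]
    intro i
    exact indicatorConstLp_coeFn
  have hSx : ∀ᵐ x ∂m, (∑ i, (l i).smulRight (v i) : Lp ℂ 2 m →L[ℂ] Lp ℂ 2 m) φ x
      = ∑ i, cv μ f φ (p i) * (A i).indicator (fun _ => (1 : ℂ)) x := by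
    rw [hS]
    filter_upwards [cptB_coe_sum Finset.univ (fun i => l i φ) v, hvi] with x h1 h2
    rw [h1]
    refine Finset.sum_congr rfl fun i _ => ?_
    rw [h2 i]
    rfl
  refine ⟨?_, ?_⟩
  · filter_upwards [hSx] with x h1 h2
    rw [h1]
    refine Finset.sum_eq_zero fun i _ => ?_
    rw [Set.indicator_of_notMem fun h => h2 h.1, mul_zero]
  · have hle : ∀ᵐ x ∂m, x ∈ C → ‖cv μ f φ x -
        (∑ i, (l i).smulRight (v i) : Lp ℂ 2 m →L[ℂ] Lp ℂ 2 m) φ x‖ₑ ^ 2
          ≤ ENNReal.ofReal ((δ * ‖φ‖) ^ 2) := by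
      filter_upwards [hSx] with x h1 hx
      obtain ⟨i, hi⟩ := hAU x hx
      obtain ⟨g, hg, hgx⟩ := hAV i x hi
      rw [h1, Finset.sum_eq_single i, Set.indicator_of_mem hi, mul_one]
      · have h2 := hU1 g hg (p i) (hpC i) φ
        rw [← hgx] at h2
        rw [← ofReal_norm, ← ENNReal.ofReal_pow (norm_nonneg _)]
        exact ENNReal.ofReal_le_ofReal (pow_le_pow_left₀ (norm_nonneg _) h2 2)
      · intro j _ hj
        rw [Set.indicator_of_notMem (hAd i j (Ne.symm hj) x hi), mul_zero]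
      · intro h
        exact absurd (Finset.mem_univ i) h
    calc ∫⁻ x in C, ‖cv μ f φ x -
          (∑ i, (l i).smulRight (v i) : Lp ℂ 2 m →L[ℂ] Lp ℂ 2 m) φ x‖ₑ ^ 2 ∂m
        ≤ ∫⁻ _x in C, ENNReal.ofReal ((δ * ‖φ‖) ^ 2) ∂m :=
          lintegral_mono_ae ((ae_restrict_iff' hCm).2 hle)
      _ = ENNReal.ofReal ((δ * ‖φ‖) ^ 2) * m C := by
          rw [lintegral_const, Measure.restrict_apply_univ]
      _ = ENNReal.ofReal ((δ * ‖φ‖) ^ 2 * a) := by
          rw [ENNReal.ofReal_mul (by positivity), ha, ENNReal.ofReal_toReal hCf]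
      _ ≤ ENNReal.ofReal (ε ^ 2 * ‖φ‖ ^ 2) := by
          refine ENNReal.ofReal_le_ofReal ?_
          calc (δ * ‖φ‖) ^ 2 * a = (δ ^ 2 * a) * ‖φ‖ ^ 2 := by ring
            _ ≤ ε ^ 2 * ‖φ‖ ^ 2 := by gcongr

end Pool.Agent.MPabcfcd.Har
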