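import Pool.Agent.Lib.MP_abcfcd_nt.A.CptA
import Pool.Agent.Lib.MP_abcfcd_nt.A.CptB

/-!
# Compactness of the operators

PROOF. Given `ε > 0` take `C` from `far_L2` and `S` from `near_fin` (both with `ε`). Then
`‖T φ - S φ‖² = ∫_C |cv f φ - S φ|² + ∫_{X - C} |cv f φ|² ≤ 2 ε² ‖φ‖²`, so `‖T - S‖ ≤ 2 ε`. `T` is
a limit
of compact operators, and the compact operators are closed (`isClosed_setOf_isCompactOperator`,
`isCompactOperator_of_tendsto`).
-/

set_option autoImplicit false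

open MeasureTheory Topology
open scoped ENNReal NNReal ComplexConjugate InnerProductSpace

namespace Pool.Agent.MPabcfcd.Har

variable {G X : Type} [Group G] [TopologicalSpace G] [IsTopologicalGroup G] [LocallyCompactSpace G]
  [T2Space G] [SecondCountableTopology G] [MeasurableSpace G] [BorelSpace G]
  [TopologicalSpace X] [LocallyCompactSpace X] [T2Space X] [SecondCountableTopology X]
  [MeasurableSpace X] [BorelSpace X] [MulAction G X] [ContinuousSMul G X]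
  {μ : Measure G} [μ.IsHaarMeasure] [μ.IsMulRightInvariant] [μ.IsInvInvariant]
  {m : Measure X} [IsFiniteMeasureOnCompacts m] [SMulInvariantMeasure G X m]

private theorem Cpt_norm_sq {Y : Type} [MeasurableSpace Y] {ν : Measure Y} (ψ : Lp ℂ 2 ν) :
    ENNReal.ofReal (‖ψ‖ ^ 2) = ∫⁻ x, ‖ψ x‖ₑ ^ 2 ∂ν := by
  have h1 := eLpNorm_nnreal_pow_eq_lintegral (f := (ψ : Y → ℂ)) (μ := ν) (p := 2) (by norm_num)
  rw [ENNReal.ofReal_pow (norm_nonneg _), ofReal_norm, Lp.enorm_def]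
  simpa using h1

theorem compact_T (hl : Loc μ m) (ho : OpenAct G X) {L : Set G} (hL : IsCompact L) {χ : G → ℂ}
    (hχ : ∀ l ∈ L, ‖χ l‖ = 1) (hcusp : Cusp X L χ) {f : G → ℂ} (hf : Continuous f)
    (hfc : HasCompactSupport f) (hfL : ∀ l ∈ L, ∀ g, f (l⁻¹ * g) = χ l * f g)
    {T : Lp ℂ 2 m →L[ℂ] Lp ℂ 2 m} (hT : RepT μ m f T) : IsCompactOperator T := by
  have key : ∀ ε : ℝ, 0 < ε → ∃ S : Lp ℂ 2 m →L[ℂ] Lp ℂ 2 m, IsCompactOperator S ∧
      ‖T - S‖ ≤ 2 * ε := by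
    intro ε hε
    obtain ⟨C, hC, hfar⟩ := far_L2 (m := m) hl hL hχ hcusp hf hfc hfL hε
    obtain ⟨S, hS, hnear⟩ := near_fin (m := m) hl ho hf hfc hC hε
    refine ⟨S, hS, ContinuousLinearMap.opNorm_le_bound _ (by positivity) fun φ => ?_⟩
    have hA := (hnear φ).1
    have hB := (hnear φ).2
    have hTφ := hT φ
    have hsub : ((T - S) φ : X → ℂ) =ᵐ[m] fun x => cv μ f φ x - S φ x := by
      have h0 : (T - S) φ = T φ - S φ := rfl
      rw [h0]
      filter_upwards [Lp.coeFn_sub (T φ) (S φ), hTφ] with x hx hx2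
      rw [hx, Pi.sub_apply, hx2]
    have h1 : ∫⁻ x, ‖((T - S) φ : Lp ℂ 2 m) x‖ₑ ^ 2 ∂m =
        ∫⁻ x, ‖cv μ f φ x - S φ x‖ₑ ^ 2 ∂m := by
      refine lintegral_congr_ae ?_
      filter_upwards [hsub] with x hx
      rw [hx]
    have h2 : ∫⁻ x in Cᶜ, ‖cv μ f φ x - S φ x‖ₑ ^ 2 ∂m = ∫⁻ x in Cᶜ, ‖cv μ f φ x‖ₑ ^ 2 ∂m := by
      refine setLIntegral_congr_fun_ae hC.measurableSet.compl ?_
      filter_upwards [hA] with x hx hxC
      rw [hx hxC, sub_zero]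
    have h3 := Cpt_norm_sq ((T - S) φ)
    rw [h1, ← lintegral_add_compl _ hC.measurableSet, h2] at h3
    have h4 : ENNReal.ofReal (‖(T - S) φ‖ ^ 2) ≤
        ENNReal.ofReal (ε ^ 2 * ‖φ‖ ^ 2 + ε ^ 2 * ‖φ‖ ^ 2) := by
      rw [h3, ENNReal.ofReal_add (by positivity) (by positivity)]
      exact add_le_add hB (hfar φ)
    rw [ENNReal.ofReal_le_ofReal_iff (by positivity)] at h4
    refine abs_le_of_sq_le_sq' ?_ (by positivity) |>.2
    nlinarith [sq_nonneg (ε * ‖φ‖)]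
  have hcl := isClosed_setOfPred_isCompactOperator (σ₁₂ := RingHom.id ℂ) (M₁ := Lp ℂ 2 m)
    (M₂ := Lp ℂ 2 m)
  refine hcl.closure_subset (Metric.mem_closure_iff.2 fun ε hε => ?_)
  obtain ⟨S, hS, hTS⟩ := key (ε / 4) (by positivity)
  refine ⟨S, hS, ?_⟩
  rw [dist_eq_norm]
  linarith

end Pool.Agent.MPabcfcd.Har
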