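import Pool.Agent.Lib.MP_abcfcd_nt.A.CvB

/-!
# The convolution far out in `X`

PROOF. Let `c` be from `Cusp`, `Ω₀` the support of `f`, `K` a compact neighbourhood of `1`,
`Ω = L⁻¹ * K⁻¹ * Ω₀` (compact). Given `δ > 0` there is a neighbourhood `U ⊆ K` of `1` with
`|f (u g) - f g| ≤ δ` for all `u ∈ U`, `g ∈ G` (uniform continuity), and this difference vanishes
unless `g ∈ K⁻¹ Ω₀`. Let `C` be the compact set of `Cusp` for `U`, and `x ∉ C`, with `u`, `l`,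
`(u l) x = x`, `‖χ l - 1‖ ≥ c`. Put `Φ = cv f φ`, `y = l • x`. From `f (l⁻¹ g) = χ l f g` we get
`f (l g) = (χ l)⁻¹ f g`, so `Φ y = (χ l)⁻¹ Φ x` (`cv_smul_left`), and `Φ (u y) = Φ x = χ l Φ y`. So
`|Φ x| = |Φ y|` and `c |Φ y| ≤ |χ l - 1| |Φ y| = |Φ (u y) - Φ y| ≤ ∫ |f(u g) - f g| |φ(g⁻¹ l x)| dg
≤ δ ∫_{K⁻¹ Ω₀} |φ(g⁻¹ l x)| dg ≤ δ ∫_Ω |φ(g⁻¹ x)| dg` (substitute `g ↦ l g`). This is `far_pt`, with
`δ = ε c`. `far_L2`: by Cauchy-Schwarz `|Φ x|² ≤ ε² μ(Ω) ∫_Ω |φ(g⁻¹ x)|² dg` for `x ∉ C`; integrate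
over `x` and use Tonelli and the invariance of `m`:
`∫_X ∫_Ω |φ(g⁻¹ x)|² dg dm = μ(Ω) ‖φ‖²`. So the left side is at most `ε² μ(Ω)² ‖φ‖²`; replace
`ε` by `ε / (μ(Ω) + 1)`.
-/

set_option autoImplicit false

open MeasureTheory Topology
open scoped ENNReal NNReal ComplexConjugate InnerProductSpace

namespace Pool.Agent.MPabcfcd.Har

variable {G X : Type} [Group G] [TopologicalSpace G] [IsTopologicalGroup G] [LocallyCompactSpace G]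
  [T2Space G] [SecondCountableTopology G] [MeasurableSpace G] [BorelSpace G]
  [TopologicalSpace X] [LocallyCompactSpace X] [T2Space X] [SecondCountableTopology X]
  [MeasurableSpace X] [BorelSpace X] [MulAction G X] [ContinuousSMul G X]
  {μ : Measure G} [μ.IsHaarMeasure] [μ.IsMulRightInvariant] [μ.IsInvInvariant]
  {m : Measure X} [IsFiniteMeasureOnCompacts m] [SMulInvariantMeasure G X m]

omit [LocallyCompactSpace G] [T2Space G] [SecondCountableTopology G] [MeasurableSpace G]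
  [BorelSpace G] in
private theorem farA_unif {f : G → ℂ} (hf : Continuous f) {K Ω₁ : Set G} (hK : K ∈ 𝓝 (1 : G))
    (hΩ₁ : IsCompact Ω₁) (hsup : ∀ u ∈ K, ∀ g, g ∉ Ω₁ → f (u * g) = 0) {δ : ℝ} (hδ : 0 < δ) :
    ∃ U ∈ 𝓝 (1 : G), (∀ u ∈ U, u ∈ K) ∧ ∀ u ∈ U, ∀ g, ‖f (u * g) - f g‖ ≤ δ := by
  have h1 : ∀ᶠ u in 𝓝 (1 : G), ∀ g ∈ Ω₁, ‖f (u * g) - f g‖ < δ := by
    apply hΩ₁.eventually_forall_of_forall_eventually
    intro g _
    have hc : Continuous fun z : G × G => ‖f (z.1 * z.2) - f z.2‖ := by fun_prop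
    have h2 : Filter.Tendsto (fun z : G × G => ‖f (z.1 * z.2) - f z.2‖) (𝓝 ((1 : G), g))
        (𝓝 0) := by
      have h3 := hc.tendsto ((1 : G), g)
      simpa using h3
    exact h2.eventually_lt_const hδ
  refine ⟨{u | (∀ g ∈ Ω₁, ‖f (u * g) - f g‖ < δ) ∧ u ∈ K}, h1.and hK, fun u hu => hu.2, ?_⟩
  intro u hu g
  by_cases hg : g ∈ Ω₁
  · exact (hu.1 g hg).le
  · have h2 := hsup u hu.2 g hg
    have h3 := hsup 1 (mem_of_mem_nhds hK) g hg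
    rw [one_mul] at h3
    rw [h2, h3, sub_zero, norm_zero]
    exact hδ.le

omit [μ.IsMulRightInvariant] [μ.IsInvInvariant] [LocallyCompactSpace G] [T2Space G]
  [SecondCountableTopology G] in
private theorem farA_shift (F : G → ℝ) (hF : ∀ g, 0 ≤ F g) {Ω₁ Ω : Set G} {l : G}
    (hsub : ∀ g, l * g ∈ Ω₁ → g ∈ Ω) (hint : IntegrableOn (fun g => F (l * g)) Ω μ) :
    ∫ g in Ω₁, F g ∂μ ≤ ∫ g in Ω, F (l * g) ∂μ := by
  have h1 := (measurePreserving_mul_left μ l).setIntegral_preimage_emb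
    (MeasurableEquiv.mulLeft l).measurableEmbedding F Ω₁
  rw [← h1]
  apply setIntegral_mono_set hint
  · exact Filter.Eventually.of_forall fun g => hF _
  · exact Filter.Eventually.of_forall fun g hg => hsub g hg

section

open scoped Pointwise

private theorem farA_pt (hl : Loc μ m) {L : Set G} (hL : IsCompact L) {χ : G → ℂ}
    (hχ : ∀ l ∈ L, ‖χ l‖ = 1) (hcusp : Cusp X L χ) {f : G → ℂ} (hf : Continuous f)
    (hfc : HasCompactSupport f) (hfL : ∀ l ∈ L, ∀ g, f (l⁻¹ * g) = χ l * f g) :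
    ∃ Ω : Set G, IsCompact Ω ∧ ∀ ε : ℝ, 0 < ε → ∃ C : Set X, IsCompact C ∧ ∀ x, x ∉ C →
      ∀ φ : Lp ℂ 2 m, ‖cv μ f φ x‖ ≤ ε * ∫ g in Ω, ‖φ (g⁻¹ • x)‖ ∂μ := by
  obtain ⟨c, hc, hcu⟩ := hcusp
  obtain ⟨K, hKc, hK⟩ := exists_compact_mem_nhds (1 : G)
  have hΩ₁ : IsCompact (K⁻¹ * tsupport f) := hKc.inv.mul hfc
  have hΩ : IsCompact (L⁻¹ * (K⁻¹ * tsupport f)) := hL.inv.mul hΩ₁
  have hsup : ∀ u ∈ K, ∀ g, g ∉ K⁻¹ * tsupport f → f (u * g) = 0 := by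
    intro u hu g hg
    by_contra h
    apply hg
    refine Set.mem_mul.2 ⟨u⁻¹, Set.inv_mem_inv.2 hu, u * g, subset_tsupport f h, ?_⟩
    rw [inv_mul_cancel_left]
  refine ⟨_, hΩ, fun ε hε => ?_⟩
  obtain ⟨U, hU, hUK, hUf⟩ := farA_unif hf hK hΩ₁ hsup (mul_pos hε hc)
  obtain ⟨C, hC, hCx⟩ := hcu U hU
  refine ⟨C, hC, fun x hx φ => ?_⟩
  obtain ⟨u, hu, l, hlL, hul, hcl⟩ := hCx x hx
  have hχ0 : χ l ≠ 0 := by
    intro h
    have := hχ l hlL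
    rw [h, norm_zero] at this
    exact zero_ne_one this
  -- the value at `l • x`
  have hfl : ∀ g, f (l * g) = (χ l)⁻¹ * f g := by
    intro g
    have h1 := hfL l hlL (l * g)
    rw [inv_mul_cancel_left] at h1
    rw [h1, inv_mul_cancel_left₀ hχ0]
  have e1 : cv μ f φ (l • x) = (χ l)⁻¹ * cv μ f φ x := by
    rw [cv_smul_left]
    unfold cv
    rw [← integral_const_mul]
    congr 1
    funext g
    show f (l * g) * φ (g⁻¹ • x) = _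
    rw [hfl g, mul_assoc]
  have e2 : cv μ f φ x = χ l * cv μ f φ (l • x) := by
    rw [e1, mul_inv_cancel_left₀ hχ0]
  have e3 : ‖cv μ f φ x‖ = ‖cv μ f φ (l • x)‖ := by
    rw [e2, norm_mul, hχ l hlL, one_mul]
  have e4 : cv μ f φ (u • l • x) - cv μ f φ (l • x) = (χ l - 1) * cv μ f φ (l • x) := by
    rw [← mul_smul, hul, sub_mul, one_mul, ← e2]
  -- the difference
  have hi1 := cv_int hl hf hfc φ (l • x)
  have hi2 := cv_int hl (f := fun g => f (u * g)) (hf.comp (continuous_const.mul continuous_id))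
    (hfc.comp_homeomorph (Homeomorph.mulLeft u)) φ (l • x)
  have e5 : cv μ f φ (u • l • x) - cv μ f φ (l • x) =
      ∫ g, (f (u * g) - f g) * φ (g⁻¹ • l • x) ∂μ := by
    rw [cv_smul_left]
    unfold cv
    rw [← integral_sub hi2 hi1]
    congr 1
    funext g
    rw [sub_mul]
  obtain ⟨M, -, hM⟩ := abs_int hl hΩ₁ (isCompact_singleton (x := l • x))
  have hint1 : IntegrableOn (fun g => φ (g⁻¹ • l • x)) (K⁻¹ * tsupport f) μ :=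
    (hM φ _ rfl).1
  obtain ⟨M', -, hM'⟩ := abs_int hl hΩ (isCompact_singleton (x := x))
  have hint2 : IntegrableOn (fun g => φ (g⁻¹ • x)) (L⁻¹ * (K⁻¹ * tsupport f)) μ :=
    (hM' φ _ rfl).1
  have e6 : ‖∫ g, (f (u * g) - f g) * φ (g⁻¹ • l • x) ∂μ‖ ≤
      ε * c * ∫ g in K⁻¹ * tsupport f, ‖φ (g⁻¹ • l • x)‖ ∂μ := by
    have h1 : ∫ g in K⁻¹ * tsupport f, (f (u * g) - f g) * φ (g⁻¹ • l • x) ∂μ =
        ∫ g, (f (u * g) - f g) * φ (g⁻¹ • l • x) ∂μ := by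
      apply setIntegral_eq_integral_of_forall_compl_eq_zero
      intro g hg
      have h2 := hsup u (hUK u hu) g hg
      have h3 := hsup 1 (mem_of_mem_nhds hK) g hg
      rw [one_mul] at h3
      rw [h2, h3, sub_zero, zero_mul]
    rw [← h1, ← integral_const_mul]
    refine norm_integral_le_of_norm_le (hint1.norm.const_mul _) ?_
    refine Filter.Eventually.of_forall fun g => ?_
    rw [norm_mul]
    exact mul_le_mul_of_nonneg_right (hUf u hu g) (norm_nonneg _)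
  have e7 : ∫ g in K⁻¹ * tsupport f, ‖φ (g⁻¹ • l • x)‖ ∂μ ≤
      ∫ g in L⁻¹ * (K⁻¹ * tsupport f), ‖φ (g⁻¹ • x)‖ ∂μ := by
    have h1 := farA_shift (μ := μ) (fun g => ‖φ (g⁻¹ • l • x)‖) (fun g => norm_nonneg _)
      (Ω₁ := K⁻¹ * tsupport f) (Ω := L⁻¹ * (K⁻¹ * tsupport f)) (l := l) ?_ ?_
    · refine h1.trans (le_of_eq ?_)
      congr 1
      funext g
      rw [mul_inv_rev, ← mul_smul, inv_mul_cancel_right]
    · intro g hg
      refine Set.mem_mul.2 ⟨l⁻¹, Set.inv_mem_inv.2 hlL, l * g, hg, ?_⟩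
      rw [inv_mul_cancel_left]
    · have h2 : (fun g => ‖φ ((l * g)⁻¹ • l • x)‖) = fun g => ‖φ (g⁻¹ • x)‖ := by
        funext g
        rw [mul_inv_rev, ← mul_smul, inv_mul_cancel_right]
      rw [h2]
      exact hint2.norm
  have e8 : c * ‖cv μ f φ (l • x)‖ ≤
      ε * c * ∫ g in L⁻¹ * (K⁻¹ * tsupport f), ‖φ (g⁻¹ • x)‖ ∂μ := by
    calc c * ‖cv μ f φ (l • x)‖ ≤ ‖χ l - 1‖ * ‖cv μ f φ (l • x)‖ :=
          mul_le_mul_of_nonneg_right hcl (norm_nonneg _)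
      _ = ‖cv μ f φ (u • l • x) - cv μ f φ (l • x)‖ := by rw [e4, norm_mul]
      _ ≤ ε * c * ∫ g in K⁻¹ * tsupport f, ‖φ (g⁻¹ • l • x)‖ ∂μ := by rw [e5]; exact e6
      _ ≤ _ := mul_le_mul_of_nonneg_left e7 (mul_pos hε hc).le
  rw [e3]
  have e9 : c * ‖cv μ f φ (l • x)‖ ≤
      c * (ε * ∫ g in L⁻¹ * (K⁻¹ * tsupport f), ‖φ (g⁻¹ • x)‖ ∂μ) := by
    refine e8.trans (le_of_eq ?_)
    ring
  exact le_of_mul_le_mul_left e9 hc

end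

theorem far_pt (hl : Loc μ m) {L : Set G} (hL : IsCompact L) {χ : G → ℂ}
    (hχ : ∀ l ∈ L, ‖χ l‖ = 1) (hcusp : Cusp X L χ) {f : G → ℂ} (hf : Continuous f)
    (hfc : HasCompactSupport f) (hfL : ∀ l ∈ L, ∀ g, f (l⁻¹ * g) = χ l * f g) :
    ∃ Ω : Set G, IsCompact Ω ∧ ∀ ε : ℝ, 0 < ε → ∃ C : Set X, IsCompact C ∧ ∀ x, x ∉ C →
      ∀ φ : Lp ℂ 2 m, ‖cv μ f φ x‖ ≤ ε * ∫ g in Ω, ‖φ (g⁻¹ • x)‖ ∂μ :=
  farA_pt hl hL hχ hcusp hf hfc hfL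

private theorem farA_cs {α : Type} [MeasurableSpace α] (ν : Measure α) {h : α → ℝ≥0∞}
    (hm : AEMeasurable h ν) : (∫⁻ g, h g ∂ν) ^ 2 ≤ ν Set.univ * ∫⁻ g, h g ^ 2 ∂ν := by
  have h1 := ENNReal.lintegral_mul_le_Lp_mul_Lq ν Real.HolderConjugate.two_two hm
    (aemeasurable_const (b := (1 : ℝ≥0∞)))
  simp only [Pi.mul_apply, mul_one, ENNReal.one_rpow, lintegral_const, one_mul] at h1
  have h2 := pow_le_pow_left' h1 2
  rw [mul_pow] at h2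
  have h3 : ∀ a : ℝ≥0∞, (a ^ (1 / 2 : ℝ)) ^ 2 = a := by
    intro a
    rw [← ENNReal.rpow_natCast, ← ENNReal.rpow_mul]
    norm_num
  rw [h3, h3] at h2
  refine h2.trans (le_of_eq ?_)
  rw [mul_comm]
  congr 1
  congr 1
  funext g
  norm_num

theorem far_L2 (hl : Loc μ m) {L : Set G} (hL : IsCompact L) {χ : G → ℂ}
    (hχ : ∀ l ∈ L, ‖χ l‖ = 1) (hcusp : Cusp X L χ) {f : G → ℂ} (hf : Continuous f)
    (hfc : HasCompactSupport f) (hfL : ∀ l ∈ L, ∀ g, f (l⁻¹ * g) = χ l * f g) {ε : ℝ}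
    (hε : 0 < ε) : ∃ C : Set X, IsCompact C ∧ ∀ φ : Lp ℂ 2 m,
      ∫⁻ x in Cᶜ, ‖cv μ f φ x‖ₑ ^ 2 ∂m ≤ ENNReal.ofReal (ε ^ 2 * ‖φ‖ ^ 2) := by
  obtain ⟨Ω, hΩ, hfar⟩ := far_pt hl hL hχ hcusp hf hfc hfL
  have hv0 : 0 ≤ (μ Ω).toReal := ENNReal.toReal_nonneg
  have hvfin : μ Ω ≠ ⊤ := hΩ.measure_lt_top.ne
  have hε' : 0 < ε / ((μ Ω).toReal + 1) := div_pos hε (by linarith)
  obtain ⟨C, hC, hCx⟩ := hfar _ hε'
  refine ⟨C, hC, fun φ => ?_⟩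
  set e := ε / ((μ Ω).toReal + 1) with he
  have hφm : Measurable (φ : X → ℂ) := (Lp.stronglyMeasurable φ).measurable
  have hmeas : Measurable fun z : X × G => ‖φ (z.2⁻¹ • z.1)‖ₑ ^ 2 := by
    have h1 : Measurable fun z : X × G => z.2⁻¹ • z.1 :=
      (continuous_snd.inv.smul continuous_fst).measurable
    exact ((hφm.comp h1).enorm).pow_const 2
  -- pointwise
  have hpt : ∀ x, x ∉ C → ‖cv μ f φ x‖ₑ ^ 2 ≤
      ENNReal.ofReal (e ^ 2) * (μ Ω * ∫⁻ g in Ω, ‖φ (g⁻¹ • x)‖ₑ ^ 2 ∂μ) := by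
    intro x hx
    obtain ⟨M', -, hM'⟩ := abs_int hl hΩ (isCompact_singleton (x := x))
    have hint : IntegrableOn (fun g => φ (g⁻¹ • x)) Ω μ := (hM' φ _ rfl).1
    have h1 := hCx x hx φ
    have h2 : ‖cv μ f φ x‖ₑ ≤ ENNReal.ofReal e * ∫⁻ g in Ω, ‖φ (g⁻¹ • x)‖ₑ ∂μ := by
      rw [← ofReal_integral_norm_eq_lintegral_enorm hint, ← ENNReal.ofReal_mul hε'.le,
        ← ofReal_norm]
      exact ENNReal.ofReal_le_ofReal h1
    have h3 := pow_le_pow_left' h2 2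
    rw [mul_pow, ← ENNReal.ofReal_pow hε'.le] at h3
    refine h3.trans ?_
    gcongr
    have h4 := farA_cs (μ.restrict Ω) (h := fun g => ‖φ (g⁻¹ • x)‖ₑ)
      hint.aestronglyMeasurable.enorm
    rw [Measure.restrict_apply_univ] at h4
    exact h4
  have hnorm : ∫⁻ x, ‖φ x‖ₑ ^ 2 ∂m = ENNReal.ofReal (‖φ‖ ^ 2) := by
    have h1 : (‖φ‖ₑ : ℝ≥0∞) = eLpNorm φ 2 m := Lp.enorm_def φ
    rw [eLpNorm_eq_lintegral_rpow_enorm_toReal (by norm_num) (by norm_num)] at h1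
    have h2 : (‖φ‖ₑ : ℝ≥0∞) ^ 2 = ∫⁻ x, ‖φ x‖ₑ ^ 2 ∂m := by
      rw [h1, ← ENNReal.rpow_natCast, ← ENNReal.rpow_mul]
      norm_num
    rw [← h2, ← ofReal_norm, ENNReal.ofReal_pow (norm_nonneg _)]
  calc ∫⁻ x in Cᶜ, ‖cv μ f φ x‖ₑ ^ 2 ∂m
      ≤ ∫⁻ x in Cᶜ, ENNReal.ofReal (e ^ 2) * (μ Ω * ∫⁻ g in Ω, ‖φ (g⁻¹ • x)‖ₑ ^ 2 ∂μ) ∂m := by
        apply setLIntegral_mono' hC.measurableSet.compl
        intro x hx
        exact hpt x hx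
    _ ≤ ∫⁻ x, ENNReal.ofReal (e ^ 2) * (μ Ω * ∫⁻ g in Ω, ‖φ (g⁻¹ • x)‖ₑ ^ 2 ∂μ) ∂m :=
        setLIntegral_le_lintegral _ _
    _ = ENNReal.ofReal (e ^ 2) * (μ Ω * ∫⁻ x, ∫⁻ g in Ω, ‖φ (g⁻¹ • x)‖ₑ ^ 2 ∂μ ∂m) := by
        rw [lintegral_const_mul' _ _ ENNReal.ofReal_ne_top, lintegral_const_mul' _ _ hvfin]
    _ = ENNReal.ofReal (e ^ 2) * (μ Ω * ∫⁻ g in Ω, ∫⁻ x, ‖φ (g⁻¹ • x)‖ₑ ^ 2 ∂m ∂μ) := by
        rw [lintegral_lintegral_swap hmeas.aemeasurable]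
    _ = ENNReal.ofReal (e ^ 2) * (μ Ω * ∫⁻ _ in Ω, ENNReal.ofReal (‖φ‖ ^ 2) ∂μ) := by
        congr 2
        apply lintegral_congr
        intro g
        rw [← hnorm]
        exact (measurePreserving_smul g⁻¹ m).lintegral_comp (f := fun x => ‖φ x‖ₑ ^ 2)
          (hφm.enorm.pow_const 2)
    _ = ENNReal.ofReal (e ^ 2) * (μ Ω * (ENNReal.ofReal (‖φ‖ ^ 2) * μ Ω)) := by
        rw [setLIntegral_const]
    _ = ENNReal.ofReal (e ^ 2 * ((μ Ω).toReal * (‖φ‖ ^ 2 * (μ Ω).toReal))) := by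
        have h1 : μ Ω = ENNReal.ofReal (μ Ω).toReal := (ENNReal.ofReal_toReal hvfin).symm
        rw [ENNReal.ofReal_mul (by positivity), ENNReal.ofReal_mul hv0,
          ENNReal.ofReal_mul (by positivity), ← h1]
    _ ≤ ENNReal.ofReal (ε ^ 2 * ‖φ‖ ^ 2) := by
        apply ENNReal.ofReal_le_ofReal
        have h1 : e * (μ Ω).toReal ≤ ε := by
          rw [he, div_mul_eq_mul_div, div_le_iff₀ (by linarith)]
          nlinarith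
        have h2 : 0 ≤ e * (μ Ω).toReal := mul_nonneg hε'.le hv0
        have h3 : (e * (μ Ω).toReal) ^ 2 ≤ ε ^ 2 := pow_le_pow_left₀ h2 h1 2
        calc e ^ 2 * ((μ Ω).toReal * (‖φ‖ ^ 2 * (μ Ω).toReal))
            = (e * (μ Ω).toReal) ^ 2 * ‖φ‖ ^ 2 := by ring
          _ ≤ ε ^ 2 * ‖φ‖ ^ 2 := mul_le_mul_of_nonneg_right h3 (by positivity)

end Pool.Agent.MPabcfcd.Har
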