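import Pool.Agent.Lib.MP_abcfcd_nt.A.Tr

/-!
# Convolutions: pointwise estimates

PROOF. Let `Ω` be the (closed, compact) support of `f`. `cv_congr`: the set where `F`, `F'` differ
is
contained in a measurable null set `Z`; apply `Loc` to the indicator function of `Z`, the compact
sets `Ω` and `{x}`: for almost all `g ∈ Ω` we have `g⁻¹ • x ∉ Z`; outside of `Ω` the integrand is
zero. `cv_int`, `cv_bound`: Cauchy-Schwarz on `Ω`: `∫_Ω |φ (g⁻¹ x)| dg ≤ μ(Ω)^(1/2)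
(∫_Ω |φ (g⁻¹ x)|² dg)^(1/2) ≤ μ(Ω)^(1/2) N^(1/2) ‖φ‖`, with `N` from `Loc` for `Ω` and `C`, applied
to
`h = ‖φ‖ₑ²` (`φ : X → ℂ` is strongly measurable, `eLpNorm` of `φ` is the norm). `abs_int` gives the
bound for every compact set `Ω` of `G`; the other two follow since `f` is bounded. `cv_sub`,
`cv_smul`: by `cv_congr` with `Lp.coeFn_add`, `Lp.coeFn_smul`, and the integrability.
-/

set_option autoImplicit false

open MeasureTheory Topology
open scoped ENNReal NNReal ComplexConjugate InnerProductSpace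

namespace Pool.Agent.MPabcfcd.Har

variable {G X : Type} [Group G] [TopologicalSpace G] [IsTopologicalGroup G] [LocallyCompactSpace G]
  [T2Space G] [SecondCountableTopology G] [MeasurableSpace G] [BorelSpace G]
  [TopologicalSpace X] [LocallyCompactSpace X] [T2Space X] [SecondCountableTopology X]
  [MeasurableSpace X] [BorelSpace X] [MulAction G X] [ContinuousSMul G X]
  {μ : Measure G} [μ.IsHaarMeasure] [μ.IsMulRightInvariant] [μ.IsInvInvariant]
  {m : Measure X} [IsFiniteMeasureOnCompacts m] [SMulInvariantMeasure G X m]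

private theorem CvA_meas (x : X) : Measurable fun g : G => g⁻¹ • x :=
  (continuous_inv.smul continuous_const).measurable

private theorem CvA_sm (φ : Lp ℂ 2 m) (x : X) : StronglyMeasurable fun g : G => φ (g⁻¹ • x) :=
  (Lp.stronglyMeasurable φ).comp_measurable (CvA_meas x)

/-- almost every property holds almost everywhere on orbits -/
private theorem CvA_ae (hl : Loc μ m) {Ω : Set G} (hΩ : IsCompact Ω) {P : X → Prop}
    (h : ∀ᵐ y ∂m, P y) (x : X) : ∀ᵐ g ∂(μ.restrict Ω), P (g⁻¹ • x) := by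
  classical
  obtain ⟨N, hN⟩ := hl Ω {x} hΩ isCompact_singleton
  set Z : Set X := toMeasurable m {y | ¬ P y} with hZ
  have hZm : MeasurableSet Z := measurableSet_toMeasurable m _
  have hZ0 : m Z = 0 := by
    rw [hZ, measure_toMeasurable]
    exact ae_iff.1 h
  have hi : Measurable (Z.indicator (fun _ => (1 : ℝ≥0∞))) := measurable_const.indicator hZm
  have h1 := hN _ hi x rfl
  have h2 : ∫⁻ y, Z.indicator (fun _ => (1 : ℝ≥0∞)) y ∂m = 0 := by
    rw [lintegral_indicator hZm]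
    simp [hZ0]
  rw [h2, mul_zero] at h1
  have h3 := (lintegral_eq_zero_iff (hi.comp (CvA_meas (G := G) x))).1 (le_antisymm h1 bot_le)
  filter_upwards [h3] with g hg
  by_contra hP
  have h4 : g⁻¹ • x ∈ Z := subset_toMeasurable m _ hP
  simp only [Function.comp_apply, Set.indicator_of_mem h4] at hg
  exact one_ne_zero hg

theorem cv_congr (hl : Loc μ m) {f : G → ℂ} (hf : HasCompactSupport f) {F F' : X → ℂ}
    (h : F =ᵐ[m] F') (x : X) : cv μ f F x = cv μ f F' x := by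
  have hΩ : IsCompact (tsupport f) := hf
  have h1 := CvA_ae hl hΩ h x
  rw [ae_restrict_iff' hΩ.measurableSet] at h1
  unfold cv
  refine integral_congr_ae ?_
  filter_upwards [h1] with g hg
  by_cases hgs : g ∈ tsupport f
  · rw [hg hgs]
  · rw [image_eq_zero_of_notMem_tsupport hgs, zero_mul, zero_mul]

theorem abs_int (hl : Loc μ m) {Ω : Set G} (hΩ : IsCompact Ω) {C : Set X} (hC : IsCompact C) :
    ∃ M : ℝ, 0 < M ∧ ∀ φ : Lp ℂ 2 m, ∀ x ∈ C, IntegrableOn (fun g => φ (g⁻¹ • x)) Ω μ ∧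
      ∫ g in Ω, ‖φ (g⁻¹ • x)‖ ∂μ ≤ M * ‖φ‖ := by
  obtain ⟨N, hN⟩ := hl Ω C hΩ hC
  have hfin : μ Ω < ∞ := hΩ.measure_lt_top
  haveI : IsFiniteMeasure (μ.restrict Ω) := ⟨by rwa [Measure.restrict_apply_univ]⟩
  set K : ℝ≥0∞ := (N : ℝ≥0∞) ^ (1 / 2 : ℝ) * (μ Ω) ^ (1 / 2 : ℝ) with hK
  have hKt : K ≠ ∞ := by
    rw [hK]
    exact ENNReal.mul_ne_top (ENNReal.rpow_ne_top_of_nonneg (by norm_num) ENNReal.coe_ne_top)
      (ENNReal.rpow_ne_top_of_nonneg (by norm_num) hfin.ne)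
  refine ⟨K.toReal + 1, by positivity, fun φ x hx => ?_⟩
  have hsm := (CvA_sm (G := G) φ x)
  have h2 : eLpNorm (fun g : G => φ (g⁻¹ • x)) 2 (μ.restrict Ω) ≤
      (N : ℝ≥0∞) ^ (1 / 2 : ℝ) * eLpNorm φ 2 m := by
    rw [eLpNorm_eq_lintegral_rpow_enorm_toReal two_ne_zero ENNReal.ofNat_ne_top,
      eLpNorm_eq_lintegral_rpow_enorm_toReal two_ne_zero ENNReal.ofNat_ne_top,
      ENNReal.toReal_ofNat, ← ENNReal.mul_rpow_of_nonneg _ _ (by norm_num)]
    refine ENNReal.rpow_le_rpow ?_ (by norm_num)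
    exact hN (fun y => ‖φ y‖ₑ ^ (2 : ℝ))
      ((Lp.stronglyMeasurable φ).measurable.enorm.pow_const (2 : ℝ)) x hx
  have h2t : eLpNorm (fun g : G => φ (g⁻¹ • x)) 2 (μ.restrict Ω) < ∞ :=
    lt_of_le_of_lt h2 (ENNReal.mul_lt_top
      (ENNReal.rpow_lt_top_of_nonneg (by norm_num) ENNReal.coe_ne_top) (Lp.eLpNorm_lt_top φ))
  have hmem : MemLp (fun g : G => φ (g⁻¹ • x)) 2 (μ.restrict Ω) := ⟨hsm.aestronglyMeasurable, h2t⟩
  refine ⟨hmem.integrable one_le_two, ?_⟩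
  have h1 : eLpNorm (fun g : G => φ (g⁻¹ • x)) 1 (μ.restrict Ω) ≤ K * eLpNorm φ 2 m := by
    refine (eLpNorm_le_eLpNorm_mul_rpow_measure_univ (p := 1) (q := 2) one_le_two
      hsm.aestronglyMeasurable).trans ?_
    rw [Measure.restrict_apply_univ]
    have e : (1 / (1 : ℝ≥0∞).toReal - 1 / (2 : ℝ≥0∞).toReal) = (1 / 2 : ℝ) := by
      rw [ENNReal.toReal_one, ENNReal.toReal_ofNat]
      norm_num
    rw [e]
    calc eLpNorm (fun g : G => φ (g⁻¹ • x)) 2 (μ.restrict Ω) * μ Ω ^ (1 / 2 : ℝ)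
        ≤ ((N : ℝ≥0∞) ^ (1 / 2 : ℝ) * eLpNorm φ 2 m) * μ Ω ^ (1 / 2 : ℝ) := by gcongr
      _ = K * eLpNorm φ 2 m := by rw [hK]; ring
  rw [integral_norm_eq_lintegral_enorm hsm.aestronglyMeasurable, ← eLpNorm_one_eq_lintegral_enorm]
  calc (eLpNorm (fun g : G => φ (g⁻¹ • x)) 1 (μ.restrict Ω)).toReal
      ≤ (K * eLpNorm φ 2 m).toReal :=
        ENNReal.toReal_mono (ENNReal.mul_ne_top hKt (Lp.eLpNorm_lt_top φ).ne) h1
    _ = K.toReal * ‖φ‖ := by rw [ENNReal.toReal_mul, Lp.norm_def]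
    _ ≤ (K.toReal + 1) * ‖φ‖ := by
        gcongr
        linarith

theorem cv_int (hl : Loc μ m) {f : G → ℂ} (hf : Continuous f) (hfc : HasCompactSupport f)
    (φ : Lp ℂ 2 m) (x : X) : Integrable (fun g => f g * φ (g⁻¹ • x)) μ := by
  have hΩ : IsCompact (tsupport f) := hfc
  obtain ⟨B, hB⟩ := hfc.exists_bound_of_continuous hf
  obtain ⟨M, -, hM⟩ := abs_int hl hΩ (isCompact_singleton (x := x))
  have h1 : IntegrableOn (fun g : G => φ (g⁻¹ • x)) (tsupport f) μ := (hM φ x rfl).1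
  have h2 : IntegrableOn (fun g : G => f g * φ (g⁻¹ • x)) (tsupport f) μ :=
    Integrable.bdd_mul (c := B) h1 hf.aestronglyMeasurable (Filter.Eventually.of_forall hB)
  refine (integrableOn_iff_integrable_of_support_subset ?_).1 h2
  intro g hg
  by_contra hgs
  refine hg ?_
  change f g * φ (g⁻¹ • x) = 0
  rw [image_eq_zero_of_notMem_tsupport hgs, zero_mul]

theorem cv_bound (hl : Loc μ m) {f : G → ℂ} (hf : Continuous f) (hfc : HasCompactSupport f)
    {C : Set X} (hC : IsCompact C) :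
    ∃ M : ℝ, 0 < M ∧ ∀ φ : Lp ℂ 2 m, ∀ x ∈ C, ‖cv μ f φ x‖ ≤ M * ‖φ‖ := by
  have hΩ : IsCompact (tsupport f) := hfc
  obtain ⟨B, hB⟩ := hfc.exists_bound_of_continuous hf
  obtain ⟨M, hM0, hM⟩ := abs_int hl hΩ hC
  refine ⟨(|B| + 1) * M, by positivity, fun φ x hx => ?_⟩
  have h1 : IntegrableOn (fun g : G => φ (g⁻¹ • x)) (tsupport f) μ := (hM φ x hx).1
  have h2 := (cv_int hl hf hfc φ x).norm
  unfold cv
  have h3 : ∫ g in tsupport f, ‖f g * φ (g⁻¹ • x)‖ ∂μ = ∫ g, ‖f g * φ (g⁻¹ • x)‖ ∂μ := by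
    refine setIntegral_eq_integral_of_forall_compl_eq_zero fun g hg => ?_
    rw [image_eq_zero_of_notMem_tsupport hg, zero_mul, norm_zero]
  calc ‖∫ g, f g * φ (g⁻¹ • x) ∂μ‖ ≤ ∫ g, ‖f g * φ (g⁻¹ • x)‖ ∂μ :=
        norm_integral_le_integral_norm _
    _ = ∫ g in tsupport f, ‖f g * φ (g⁻¹ • x)‖ ∂μ := h3.symm
    _ ≤ ∫ g in tsupport f, (|B| + 1) * ‖φ (g⁻¹ • x)‖ ∂μ := by
        refine integral_mono h2.integrableOn (h1.norm.const_mul _) fun g => ?_
        change ‖f g * φ (g⁻¹ • x)‖ ≤ (|B| + 1) * ‖φ (g⁻¹ • x)‖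
        rw [norm_mul]
        refine mul_le_mul_of_nonneg_right ?_ (norm_nonneg _)
        have := hB g
        have := le_abs_self B
        linarith
    _ = (|B| + 1) * ∫ g in tsupport f, ‖φ (g⁻¹ • x)‖ ∂μ := integral_const_mul _ _
    _ ≤ (|B| + 1) * (M * ‖φ‖) := by
        have := (hM φ x hx).2
        gcongr
    _ = (|B| + 1) * M * ‖φ‖ := by ring

theorem cv_add (hl : Loc μ m) {f : G → ℂ} (hf : Continuous f) (hfc : HasCompactSupport f)
    (φ ψ : Lp ℂ 2 m) (x : X) : cv μ f (φ + ψ : Lp ℂ 2 m) x = cv μ f φ x + cv μ f ψ x := by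
  rw [cv_congr hl hfc (Lp.coeFn_add φ ψ) x]
  unfold cv
  rw [← integral_add (cv_int hl hf hfc φ x) (cv_int hl hf hfc ψ x)]
  refine integral_congr_ae (Filter.Eventually.of_forall fun g => ?_)
  change f g * (φ (g⁻¹ • x) + ψ (g⁻¹ • x)) = f g * φ (g⁻¹ • x) + f g * ψ (g⁻¹ • x)
  ring

theorem cv_smul (hl : Loc μ m) {f : G → ℂ} (hfc : HasCompactSupport f)
    (c : ℂ) (φ : Lp ℂ 2 m) (x : X) : cv μ f (c • φ : Lp ℂ 2 m) x = c * cv μ f φ x := by
  rw [cv_congr hl hfc (Lp.coeFn_smul c φ) x]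
  unfold cv
  rw [← integral_const_mul]
  refine integral_congr_ae (Filter.Eventually.of_forall fun g => ?_)
  change f g * (c * φ (g⁻¹ • x)) = c * (f g * φ (g⁻¹ • x))
  ring

end Pool.Agent.MPabcfcd.Har
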