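import Pool.Agent.Lib.MP_abcfcd_nt.A.CvA

/-!
# Convolutions: translations and continuity

PROOF. `cv_smul_left`: substitute `g ↦ h g` (left invariance): `cv f F (h x) = ∫ f(g) F(g⁻¹ h x) dg
=
∫ f(h g) F(g⁻¹ x) dg`. `cv_smul_right`: substitute `g ↦ g h⁻¹` (right invariance). `equicont`: let
`K` be a compact neighbourhood of `1` in `G` and `Ω = K⁻¹ * supp f` (contains `supp f`). For `h ∈ K`
the function `g ↦ f(h g) - f(g)` vanishes outside of `Ω`, and by uniform continuity
(`Continuous.uniformContinuous_of_hasCompactSupport`-type lemma, or compactness of `Ω`) it is at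
most
`ε/M` in absolute value for `h` in a neighbourhood `U ⊆ K` of `1`, `M` from `abs_int` for `Ω` and
`C`. `continuous_cv`: at `x` take `C = {x}` in `equicont`; by `OpenAct` the points `h • x`, `h ∈ U`,
form a neighbourhood of `x`. `continuous_cv'`: for a continuous `F` (not in `L²`) the integral
depends continuously on `x` by dominated convergence
(`continuous_parametric_integral_of_continuous` with the compact support of `f`).
-/

set_option autoImplicit false

open MeasureTheory Topology
open scoped ENNReal NNReal ComplexConjugate InnerProductSpace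

namespace Pool.Agent.MPabcfcd.Har

variable {G X : Type} [Group G] [TopologicalSpace G] [IsTopologicalGroup G] [LocallyCompactSpace G]
  [T2Space G] [SecondCountableTopology G] [MeasurableSpace G] [BorelSpace G]
  [TopologicalSpace X] [LocallyCompactSpace X] [T2Space X] [SecondCountableTopology X]
  [MeasurableSpace X] [BorelSpace X] [MulAction G X] [ContinuousSMul G X]
  {μ : Measure G} [μ.IsHaarMeasure] [μ.IsMulRightInvariant] [μ.IsInvInvariant]
  {m : Measure X} [IsFiniteMeasureOnCompacts m] [SMulInvariantMeasure G X m]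

theorem cv_smul_left (f : G → ℂ) (F : X → ℂ) (h : G) (x : X) :
    cv μ f F (h • x) = cv μ (fun g => f (h * g)) F x := by
  unfold cv
  rw [← integral_mul_left_eq_self (fun g => f g * F (g⁻¹ • (h • x))) h]
  refine integral_congr_ae (Filter.Eventually.of_forall fun g => ?_)
  simp only
  rw [mul_inv_rev, mul_smul, inv_smul_smul]

theorem cv_smul_right (f : G → ℂ) (F : X → ℂ) (h : G) (x : X) :
    cv μ f (fun y => F (h⁻¹ • y)) x = cv μ (fun g => f (g * h⁻¹)) F x := by
  unfold cv
  rw [← integral_mul_right_eq_self (fun g => f (g * h⁻¹) * F (g⁻¹ • x)) h]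
  refine integral_congr_ae (Filter.Eventually.of_forall fun g => ?_)
  simp only
  rw [mul_inv_rev, mul_smul, mul_inv_cancel_right]

open scoped Pointwise in
theorem equicont (hl : Loc μ m) {f : G → ℂ} (hf : Continuous f) (hfc : HasCompactSupport f)
    {C : Set X} (hC : IsCompact C) {ε : ℝ} (hε : 0 < ε) :
    ∃ U ∈ 𝓝 (1 : G), ∀ h ∈ U, ∀ x ∈ C, ∀ φ : Lp ℂ 2 m,
      ‖cv μ f φ (h • x) - cv μ f φ x‖ ≤ ε * ‖φ‖ := by
  obtain ⟨K, hK, hK1⟩ := exists_compact_mem_nhds (1 : G)
  have h1K : (1 : G) ∈ K := mem_of_mem_nhds hK1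
  have hΩ : IsCompact (K⁻¹ * tsupport f) := hK.inv.mul hfc
  obtain ⟨M, hM, hMφ⟩ := abs_int hl hΩ hC
  have hδ : 0 < ε / M := div_pos hε hM
  have hev : ∀ᶠ h in 𝓝 (1 : G), ∀ g ∈ K⁻¹ * tsupport f, ‖f (h * g) - f g‖ ≤ ε / M := by
    refine hΩ.eventually_forall_of_forall_eventually fun g _ => ?_
    have hc : Continuous fun z : G × G => ‖f (z.1 * z.2) - f z.2‖ := by fun_prop
    have h0 : ‖f ((1 : G) * g) - f g‖ < ε / M := by
      rw [one_mul, sub_self, norm_zero]
      exact hδ
    have := hc.continuousAt (x := ((1 : G), g)) |>.eventually (gt_mem_nhds h0)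
    exact this.mono fun z hz => le_of_lt hz
  refine ⟨K ∩ {h | ∀ g ∈ K⁻¹ * tsupport f, ‖f (h * g) - f g‖ ≤ ε / M},
    Filter.inter_mem hK1 hev, ?_⟩
  rintro h ⟨hhK, hh⟩ x hx φ
  have hz : ∀ g, g ∉ K⁻¹ * tsupport f → f (h * g) - f g = 0 := by
    intro g hg
    have e1 : f g = 0 := by
      by_contra hne
      refine hg ⟨1, Set.mem_inv.2 (by rwa [inv_one]), g, subset_tsupport f hne, one_mul g⟩
    have e2 : f (h * g) = 0 := by
      by_contra hne
      refine hg ⟨h⁻¹, Set.mem_inv.2 (by rwa [inv_inv]), h * g, subset_tsupport f hne, ?_⟩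
      simp
    rw [e1, e2, sub_zero]
  have hfh : Continuous fun g => f (h * g) := by fun_prop
  have hfhc : HasCompactSupport fun g => f (h * g) :=
    hfc.comp_homeomorph (Homeomorph.mulLeft h)
  have e3 : cv μ f φ (h • x) - cv μ f φ x
      = ∫ g in K⁻¹ * tsupport f, (f (h * g) - f g) * φ (g⁻¹ • x) ∂μ := by
    rw [cv_smul_left, setIntegral_eq_integral_of_forall_compl_eq_zero]
    · unfold cv
      rw [← integral_sub (cv_int hl hfh hfhc φ x) (cv_int hl hf hfc φ x)]
      refine integral_congr_ae (Filter.Eventually.of_forall fun g => ?_)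
      simp only
      ring
    · intro g hg
      rw [hz g hg, zero_mul]
  obtain ⟨hi, hle⟩ := hMφ φ x hx
  rw [e3]
  calc ‖∫ g in K⁻¹ * tsupport f, (f (h * g) - f g) * φ (g⁻¹ • x) ∂μ‖
      ≤ ∫ g in K⁻¹ * tsupport f, ε / M * ‖φ (g⁻¹ • x)‖ ∂μ := by
        refine norm_integral_le_of_norm_le (hi.norm.const_mul _) ?_
        filter_upwards [ae_restrict_mem hΩ.measurableSet] with g hg
        rw [norm_mul]
        exact mul_le_mul_of_nonneg_right (hh g hg) (norm_nonneg _)
    _ = ε / M * ∫ g in K⁻¹ * tsupport f, ‖φ (g⁻¹ • x)‖ ∂μ := integral_const_mul _ _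
    _ ≤ ε / M * (M * ‖φ‖) := mul_le_mul_of_nonneg_left hle hδ.le
    _ = ε * ‖φ‖ := by field_simp

theorem continuous_cv (hl : Loc μ m) (ho : OpenAct G X) {f : G → ℂ} (hf : Continuous f)
    (hfc : HasCompactSupport f) (φ : Lp ℂ 2 m) : Continuous (cv μ f φ) := by
  rw [continuous_iff_continuousAt]
  intro x
  rw [ContinuousAt, Metric.tendsto_nhds]
  intro ε hε
  have hφ : 0 < ‖φ‖ + 1 := by positivity
  obtain ⟨U, hU, h⟩ := equicont hl hf hfc (isCompact_singleton (x := x)) (div_pos hε hφ)
  filter_upwards [ho x U hU] with y hy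
  obtain ⟨g, hg, rfl⟩ := hy
  rw [dist_eq_norm]
  refine (h g hg x rfl φ).trans_lt ?_
  rw [div_mul_eq_mul_div, div_lt_iff₀ hφ]
  nlinarith

theorem continuous_cv' {f : G → ℂ} (hf : Continuous f) (hfc : HasCompactSupport f) {F : X → ℂ}
    (hF : Continuous F) : Continuous (cv μ f F) := by
  have h1 : cv μ f F = fun x => ∫ g in tsupport f, f g * F (g⁻¹ • x) ∂μ := by
    funext x
    unfold cv
    rw [setIntegral_eq_integral_of_forall_compl_eq_zero]
    intro g hg
    rw [image_eq_zero_of_notMem_tsupport hg, zero_mul]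
  rw [h1]
  have hc : Continuous (Function.uncurry fun (x : X) (g : G) => f g * F (g⁻¹ • x)) := by
    unfold Function.uncurry
    fun_prop
  exact continuous_parametric_integral_of_continuous hc hfc

end Pool.Agent.MPabcfcd.Har
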