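import Pool.Agent.Lib.MP_abcfcd_nt.A.Tr

/-!
# Closed invariant subspaces of `L²(X)`

PROOF. `isInv_gen`: the span is invariant since `tr m g (tr m h v) = tr m (g h) v`, and `tr m g` is
continuous, so the closure is invariant. `isInv_orth`: `inner_tr`. `isInv_inf`: trivial.
`proj_tr`: for `φ` write `φ = p + q` with `p ∈ W`, `q ∈ Wᗮ`; then `tr g φ = tr g p + tr g q` is the
decomposition of `tr g φ`. The existence of the orthogonal projection follows from the closedness
(`Submodule.HasOrthogonalProjection` for complete subspaces); to avoid instances the projection of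
`v` is given here as a vector `p ∈ W` with `v - p ∈ Wᗮ`. `exists_proj`: existence of such `p`, and
`p ≠ 0` if `W` is a nonzero subspace of the space generated by `v`: otherwise `v ⊥ W`, hence all
translates of `v` are orthogonal to `W`, hence `W ≤ gen v` is orthogonal to itself. `proj_equiv`: if
`tr m l v = c • v` then `tr m l p = c • p` (uniqueness of the decomposition of `tr m l v`).
-/

set_option autoImplicit false

open MeasureTheory Topology
open scoped ENNReal NNReal ComplexConjugate InnerProductSpace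

namespace Pool.Agent.MPabcfcd.Har

variable {G X : Type} [Group G] [TopologicalSpace G] [IsTopologicalGroup G] [LocallyCompactSpace G]
  [T2Space G] [SecondCountableTopology G] [MeasurableSpace G] [BorelSpace G]
  [TopologicalSpace X] [LocallyCompactSpace X] [T2Space X] [SecondCountableTopology X]
  [MeasurableSpace X] [BorelSpace X] [MulAction G X] [ContinuousSMul G X]
  {μ : Measure G} [μ.IsHaarMeasure] [μ.IsMulRightInvariant] [μ.IsInvInvariant]
  {m : Measure X} [IsFiniteMeasureOnCompacts m] [SMulInvariantMeasure G X m]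

theorem mem_gen (v : Lp ℂ 2 m) : v ∈ gen G m v := by
  refine Submodule.le_topologicalClosure _ (Submodule.subset_span ⟨1, ?_⟩)
  exact tr_one v

theorem isInv_gen (v : Lp ℂ 2 m) : IsInv G m (gen G m v) := by
  refine ⟨Submodule.isClosed_topologicalClosure _, fun g φ hφ => ?_⟩
  have h1 : ∀ ψ ∈ Submodule.span ℂ (Set.range fun h : G => tr m h v),
      tr m g ψ ∈ Submodule.span ℂ (Set.range fun h : G => tr m h v) := by
    intro ψ hψ
    induction hψ using Submodule.span_induction with
    | mem x hx =>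
      obtain ⟨h, rfl⟩ := hx
      refine Submodule.subset_span ⟨g * h, ?_⟩
      exact tr_mul g h v
    | zero =>
      rw [map_zero]
      exact Submodule.zero_mem _
    | add x y _ _ hx hy =>
      rw [map_add]
      exact Submodule.add_mem _ hx hy
    | smul c x _ hx =>
      rw [map_smul]
      exact Submodule.smul_mem _ c hx
  have h2 : φ ∈ closure ((Submodule.span ℂ (Set.range fun h : G => tr m h v) :
      Submodule ℂ (Lp ℂ 2 m)) : Set (Lp ℂ 2 m)) := hφ
  exact map_mem_closure (tr m g).continuous h2 h1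

theorem gen_le {W : Submodule ℂ (Lp ℂ 2 m)} (hW : IsInv G m W) {v : Lp ℂ 2 m} (hv : v ∈ W) :
    gen G m v ≤ W := by
  refine Submodule.topologicalClosure_minimal _ ?_ hW.closed
  rw [Submodule.span_le]
  rintro _ ⟨g, rfl⟩
  exact hW.inv g v hv

theorem isInv_orth {W : Submodule ℂ (Lp ℂ 2 m)} (hW : IsInv G m W) : IsInv G m Wᗮ := by
  refine ⟨Submodule.isClosed_orthogonal W, fun g φ hφ => ?_⟩
  rw [Submodule.mem_orthogonal] at hφ ⊢
  intro u hu
  have h1 := inner_tr (m := m) g⁻¹ u φ
  rw [inv_inv] at h1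
  rw [← h1]
  exact hφ _ (hW.inv g⁻¹ u hu)

theorem isInv_inf {W W' : Submodule ℂ (Lp ℂ 2 m)} (hW : IsInv G m W) (hW' : IsInv G m W') :
    IsInv G m (W ⊓ W') := by
  refine ⟨?_, fun g φ hφ => ⟨hW.inv g φ hφ.1, hW'.inv g φ hφ.2⟩⟩
  rw [Submodule.coe_inf]
  exact hW.closed.inter hW'.closed

theorem exists_proj {W : Submodule ℂ (Lp ℂ 2 m)} (hW : IsInv G m W) (v : Lp ℂ 2 m) :
    ∃ p ∈ W, v - p ∈ Wᗮ ∧ (W ≤ gen G m v → W ≠ ⊥ → p ≠ 0) ∧
      ∀ (l : G) (c : ℂ), tr m l v = c • v → tr m l p = c • p := by
  have hc : IsComplete (W : Set (Lp ℂ 2 m)) := hW.closed.isComplete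
  obtain ⟨p, hp, hp2⟩ := Submodule.exists_norm_eq_iInf_of_complete_subspace W hc v
  have hp3 := (Submodule.norm_eq_iInf_iff_inner_eq_zero W hp).1 hp2
  have hq : v - p ∈ Wᗮ := by
    rw [Submodule.mem_orthogonal']
    exact hp3
  refine ⟨p, hp, hq, fun hle hne h0 => ?_, fun l c hl => ?_⟩
  · rw [h0, sub_zero] at hq
    have h1 : gen G m v ≤ Wᗮ := gen_le (isInv_orth hW) hq
    refine hne ?_
    rw [Submodule.eq_bot_iff]
    intro x hx
    have h2 := Submodule.mem_orthogonal W x |>.1 (h1 (hle hx)) x hx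
    exact inner_self_eq_zero.1 h2
  · have h1 : tr m l p - c • p ∈ W :=
      Submodule.sub_mem _ (hW.inv l p hp) (Submodule.smul_mem _ c hp)
    have h2 : tr m l p - c • p ∈ Wᗮ := by
      have h3 : tr m l p - c • p = c • (v - p) - tr m l (v - p) := by
        rw [map_sub, hl, smul_sub]
        abel
      rw [h3]
      exact Submodule.sub_mem _ (Submodule.smul_mem _ c hq) ((isInv_orth hW).inv l _ hq)
    have h4 := Submodule.mem_orthogonal W _ |>.1 h2 _ h1
    exact sub_eq_zero.1 (inner_self_eq_zero.1 h4)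

end Pool.Agent.MPabcfcd.Har
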