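import Pool.Agent.Lib.MP_abcfcd_nt.A.CvB
import Pool.Agent.Lib.MP_abcfcd_nt.A.Inv

/-!
# The operators on `L²(X)` given by functions on `G`

PROOF. `exists_T`: define `T φ = ∫ g, f g • tr m g φ ∂μ` (Bochner integral in `L²`; the integrand is
continuous with compact support by `continuous_tr`, so it is integrable); `T` is linear and
`‖T φ‖ ≤ (∫ ‖f‖) ‖φ‖` (`LinearMap.mkContinuous`). `T φ =ᵐ cv f φ`: both sides are integrable on
compact sets (`T φ ∈ L²`; `cv_bound` and measurability: `cv f φ` is continuous by `continuous_cv`);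
for a compact `C` and a bounded measurable function `u` vanishing outside of `C` (an indicator
function
of a measurable subset of `C`) one has `∫ u (T φ) = ∫_g f g ∫_x u(x) φ(g⁻¹ x)` (the functional
`ψ ↦ ∫ u ψ` on `L²` is continuous linear, `ContinuousLinearMap.integral_comp_comm`) `= ∫_x u(x)
cv f φ x` (Fubini: `(g, x) ↦ f g u x φ(g⁻¹ x)` is integrable on the product by
`∫_g |f g| ∫_x |u(x)| |φ(g⁻¹ x)| ≤ ‖f‖_1 ‖u‖_2 ‖φ‖_2`). So the two functions have the same integrals
over all measurable sets in `C` and agree almost everywhere on `C`; `X` is a countable union of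
compact sets. Invariance: a Bochner integral of a function with values in a closed subspace is in
the
subspace (`Submodule` version: `Convex.integral_mem` is for probability measures; use instead that
the orthogonal complement kills it: `ψ ∈ Wᗮ` gives `⟪ψ, T φ⟫ = ∫ f g * ⟪ψ, tr g φ⟫ = 0`, and
`Wᗮᗮ = W` for closed `W`).
`inner_T`: `⟪T φ, ψ⟫ = ∫ conj(f g) ⟪tr g φ, ψ⟫ dg = ∫ conj(f g) ⟪φ, tr g⁻¹ ψ⟫ dg = ∫ conj(f g⁻¹)
⟪φ, tr g ψ⟫ dg = ⟪φ, T' ψ⟫` by inversion invariance.
-/

set_option autoImplicit false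

open MeasureTheory Topology
open scoped ENNReal NNReal ComplexConjugate InnerProductSpace

namespace Pool.Agent.MPabcfcd.Har

variable {G X : Type} [Group G] [TopologicalSpace G] [IsTopologicalGroup G] [LocallyCompactSpace G]
  [T2Space G] [SecondCountableTopology G] [MeasurableSpace G] [BorelSpace G]
  [TopologicalSpace X] [LocallyCompactSpace X] [T2Space X] [SecondCountableTopology X]
  [MeasurableSpace X] [BorelSpace X] [MulAction G X] [ContinuousSMul G X]
  {μ : Measure G} [μ.IsHaarMeasure] [μ.IsMulRightInvariant] [μ.IsInvInvariant]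
  {m : Measure X} [IsFiniteMeasureOnCompacts m] [SMulInvariantMeasure G X m]

private theorem sfin_X (m : Measure X) [IsFiniteMeasureOnCompacts m] : SigmaFinite m := by
  infer_instance

private theorem lint_bd (φ : Lp ℂ 2 m) (s : Set X) (g : G) :
    ∫⁻ x in s, ‖(φ : X → ℂ) (g⁻¹ • x)‖ₑ ∂m ≤ eLpNorm φ 2 m * (m s) ^ (1 / 2 : ℝ) := by
  have hmp : MeasurePreserving (fun x : X => g⁻¹ • x) m m := measurePreserving_smul g⁻¹ m
  have h1 : AEStronglyMeasurable (fun x => (φ : X → ℂ) (g⁻¹ • x)) m :=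
    (Lp.aestronglyMeasurable φ).comp_measurePreserving hmp
  have h2 := eLpNorm_le_eLpNorm_mul_rpow_measure_univ (μ := m.restrict s) (p := 1) (q := 2)
    (f := fun x => (φ : X → ℂ) (g⁻¹ • x)) one_le_two h1.restrict
  rw [eLpNorm_one_eq_lintegral_enorm] at h2
  refine h2.trans ?_
  have h3 : eLpNorm (fun x => (φ : X → ℂ) (g⁻¹ • x)) 2 (m.restrict s) ≤ eLpNorm φ 2 m := by
    refine (eLpNorm_mono_measure _ Measure.restrict_le_self).trans ?_
    exact (eLpNorm_comp_measurePreserving (Lp.aestronglyMeasurable φ) hmp).le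
  have h4 : (1 / (1 : ℝ≥0∞).toReal - 1 / (2 : ℝ≥0∞).toReal) = (1 / 2 : ℝ) := by
    norm_num
  rw [h4, Measure.restrict_apply_univ]
  gcongr

private theorem smeas_prod (φ : Lp ℂ 2 m) {f : G → ℂ} (hf : Continuous f) :
    StronglyMeasurable (Function.uncurry fun (g : G) (x : X) => f g * (φ : X → ℂ) (g⁻¹ • x)) := by
  have h1 : Measurable fun z : G × X => z.1⁻¹ • z.2 := by
    have : Continuous fun z : G × X => z.1⁻¹ • z.2 := by fun_prop
    exact this.measurable
  have h2 : StronglyMeasurable fun z : G × X => (φ : X → ℂ) (z.1⁻¹ • z.2) :=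
    (Lp.stronglyMeasurable φ).comp_measurable h1
  have h3 : StronglyMeasurable fun z : G × X => f z.1 :=
    (hf.stronglyMeasurable).comp_measurable measurable_fst
  exact h3.mul h2

private theorem int_prod (φ : Lp ℂ 2 m) {f : G → ℂ} (hf : Continuous f)
    (hfc : HasCompactSupport f) {s : Set X} (hs : m s < ∞) :
    Integrable (Function.uncurry fun (g : G) (x : X) => f g * (φ : X → ℂ) (g⁻¹ • x))
      (μ.prod (m.restrict s)) := by
  have : SigmaFinite m := sfin_X m
  refine ⟨(smeas_prod φ hf).aestronglyMeasurable, ?_⟩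
  unfold HasFiniteIntegral
  rw [lintegral_prod _ ((smeas_prod φ hf).aestronglyMeasurable.enorm)]
  have hfi : Integrable f μ := hf.integrable_of_hasCompactSupport hfc
  calc ∫⁻ g, ∫⁻ x in s, ‖Function.uncurry (fun (g : G) (x : X) =>
          f g * (φ : X → ℂ) (g⁻¹ • x)) (g, x)‖ₑ ∂m ∂μ
      ≤ ∫⁻ g, ‖f g‖ₑ * (eLpNorm φ 2 m * (m s) ^ (1 / 2 : ℝ)) ∂μ := by
        refine lintegral_mono fun g => ?_
        have h1 : ∀ x : X, ‖Function.uncurry (fun (g : G) (x : X) =>
            f g * (φ : X → ℂ) (g⁻¹ • x)) (g, x)‖ₑ = ‖f g‖ₑ * ‖(φ : X → ℂ) (g⁻¹ • x)‖ₑ :=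
          fun x => by simp [Function.uncurry, enorm_mul]
        simp_rw [h1]
        rw [lintegral_const_mul' _ _ enorm_ne_top]
        gcongr
        exact lint_bd φ s g
    _ = (∫⁻ g, ‖f g‖ₑ ∂μ) * (eLpNorm φ 2 m * (m s) ^ (1 / 2 : ℝ)) := by
        rw [lintegral_mul_const'' _ hf.aestronglyMeasurable.enorm]
    _ < ∞ := by
        refine ENNReal.mul_lt_top hfi.2 (ENNReal.mul_lt_top (Lp.eLpNorm_lt_top φ) ?_)
        exact ENNReal.rpow_lt_top_of_nonneg (by norm_num) hs.ne

private theorem int_tr (φ : Lp ℂ 2 m) {f : G → ℂ} (hf : Continuous f)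
    (hfc : HasCompactSupport f) : Integrable (fun g => f g • tr m g φ) μ := by
  have h : Continuous fun g => f g • tr m g φ := hf.smul (continuous_tr φ)
  exact h.integrable_of_hasCompactSupport hfc.smul_right

private theorem rep_ae {f : G → ℂ} (hf : Continuous f) (hfc : HasCompactSupport f)
    (φ : Lp ℂ 2 m) : (∫ g, f g • tr m g φ ∂μ : Lp ℂ 2 m) =ᵐ[m] cv μ f φ := by
  have : SigmaFinite m := sfin_X m
  refine ae_eq_of_forall_setIntegral_eq_of_sigmaFinite ?_ ?_ ?_
  · intro s _ hms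
    exact integrableOn_Lp_of_measure_ne_top _ fact_one_le_two_ennreal.elim hms.ne
  · intro s _ hms
    exact (int_prod (μ := μ) φ hf hfc hms).integral_prod_right
  · intro s hs hms
    have h1 : ∫ x in s, cv μ f φ x ∂m = ∫ g, ∫ x in s, f g * (φ : X → ℂ) (g⁻¹ • x) ∂m ∂μ :=
      (integral_integral_swap (int_prod (μ := μ) φ hf hfc hms)).symm
    rw [h1, ← L2.inner_indicatorConstLp_one hs hms.ne, ← integral_inner (int_tr φ hf hfc)]
    refine integral_congr_ae (Filter.Eventually.of_forall fun g => ?_)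
    change ⟪indicatorConstLp 2 hs hms.ne (1 : ℂ), f g • tr m g φ⟫_ℂ =
      ∫ x in s, f g * (φ : X → ℂ) (g⁻¹ • x) ∂m
    rw [inner_smul_right, L2.inner_indicatorConstLp_one hs hms.ne, integral_const_mul]
    congr 1
    exact setIntegral_congr_ae hs ((tr_coe g φ).mono fun x hx _ => hx)

theorem exists_T (hl : Loc μ m) (ho : OpenAct G X) {f : G → ℂ} (hf : Continuous f)
    (hfc : HasCompactSupport f) : ∃ T : Lp ℂ 2 m →L[ℂ] Lp ℂ 2 m, RepT μ m f T ∧
      (∀ φ : Lp ℂ 2 m, T φ = ∫ g, f g • tr m g φ ∂μ) ∧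
      ∀ W, IsInv G m W → ∀ φ ∈ W, T φ ∈ W := by
  let L : Lp ℂ 2 m →ₗ[ℂ] Lp ℂ 2 m :=
    { toFun := fun φ => ∫ g, f g • tr m g φ ∂μ
      map_add' := by
        intro φ ψ
        rw [← integral_add (int_tr φ hf hfc) (int_tr ψ hf hfc)]
        refine integral_congr_ae (Filter.Eventually.of_forall fun g => ?_)
        simp [map_add, smul_add]
      map_smul' := by
        intro c φ
        rw [RingHom.id_apply, ← integral_smul]
        refine integral_congr_ae (Filter.Eventually.of_forall fun g => ?_)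
        simp only [map_smul]
        exact smul_comm _ _ _ }
  have hL : ∀ φ, ‖L φ‖ ≤ (∫ g, ‖f g‖ ∂μ) * ‖φ‖ := by
    intro φ
    change ‖∫ g, f g • tr m g φ ∂μ‖ ≤ _
    refine (norm_integral_le_integral_norm _).trans (le_of_eq ?_)
    rw [← integral_mul_const]
    refine integral_congr_ae (Filter.Eventually.of_forall fun g => ?_)
    simp [norm_smul]
  refine ⟨L.mkContinuous _ hL, ?_, ?_, ?_⟩
  · intro φ
    exact rep_ae hf hfc φ
  · intro φ
    rfl
  · intro W hW φ hφ
    change (∫ g, f g • tr m g φ ∂μ) ∈ W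
    have : CompleteSpace W := hW.closed.completeSpace_coe
    rw [← Submodule.orthogonal_orthogonal W, Submodule.mem_orthogonal]
    intro ψ hψ
    rw [← integral_inner (int_tr φ hf hfc)]
    refine integral_eq_zero_of_ae (Filter.Eventually.of_forall fun g => ?_)
    change ⟪ψ, f g • tr m g φ⟫_ℂ = 0
    rw [inner_smul_right, (Submodule.mem_orthogonal' W ψ).1 hψ _ (hW.inv g φ hφ), mul_zero]

theorem inner_T (hl : Loc μ m) (ho : OpenAct G X) {f : G → ℂ} (hf : Continuous f)
    (hfc : HasCompactSupport f) {T T' : Lp ℂ 2 m →L[ℂ] Lp ℂ 2 m} (hT : RepT μ m f T)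
    (hT' : RepT μ m (fun g => conj (f g⁻¹)) T') (φ ψ : Lp ℂ 2 m) :
    ⟪T φ, ψ⟫_ℂ = ⟪φ, T' ψ⟫_ℂ := by
  have hf' : Continuous fun g => conj (f g⁻¹) := by fun_prop
  have hfc' : HasCompactSupport fun g => conj (f g⁻¹) := by
    have h1 : HasCompactSupport (f ∘ Homeomorph.inv G) := hfc.comp_homeomorph (Homeomorph.inv G)
    exact h1.comp_left (g := fun z : ℂ => conj z) (map_zero _)
  have e1 : T φ = ∫ g, f g • tr m g φ ∂μ := Lp.ext ((hT φ).trans (rep_ae hf hfc φ).symm)
  have e2 : T' ψ = ∫ g, conj (f g⁻¹) • tr m g ψ ∂μ :=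
    Lp.ext ((hT' ψ).trans (rep_ae hf' hfc' ψ).symm)
  have h1 : ⟪φ, T' ψ⟫_ℂ = ∫ g, conj (f g⁻¹) * ⟪φ, tr m g ψ⟫_ℂ ∂μ := by
    rw [e2, ← integral_inner (int_tr ψ hf' hfc')]
    refine integral_congr_ae (Filter.Eventually.of_forall fun g => ?_)
    exact inner_smul_right _ _ _
  have h2 : ⟪ψ, T φ⟫_ℂ = ∫ g, f g * ⟪ψ, tr m g φ⟫_ℂ ∂μ := by
    rw [e1, ← integral_inner (int_tr φ hf hfc)]
    refine integral_congr_ae (Filter.Eventually.of_forall fun g => ?_)
    exact inner_smul_right _ _ _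
  rw [h1, ← inner_conj_symm, h2, ← integral_conj,
    ← integral_inv_eq_self (fun g => conj (f g⁻¹) * ⟪φ, tr m g ψ⟫_ℂ) μ]
  refine integral_congr_ae (Filter.Eventually.of_forall fun g => ?_)
  change conj (f g * ⟪ψ, tr m g φ⟫_ℂ) = conj (f g⁻¹⁻¹) * ⟪φ, tr m g⁻¹ ψ⟫_ℂ
  rw [map_mul, inner_conj_symm, inner_tr, inv_inv]

end Pool.Agent.MPabcfcd.Har
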