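import Pool.Agent.Lib.MP_abcfcd_nt.A.CvT

/-!
# Vectors which transform under `L` by the character

PROOF. Let `v ≠ 0` with `tr m l v = χ l • v` for `l ∈ L`. By `continuous_tr` there is a
neighbourhood
`U` of `1` with `‖tr m u v - v‖ ≤ ‖v‖ / 2` for `u ∈ U`. Take `f` from `Bumps` for `U` and `T` from
`exists_T`. If `f g ≠ 0`, `g = u l`, then `f g • tr m g v = ‖f g‖ (χ l)⁻¹ • tr m u (χ l • v) =
‖f g‖ • tr m u v`. So `T v = ∫ ‖f g‖ • tr_u v` and `‖T v - (∫ ‖f‖) v‖ ≤ (∫ ‖f‖) ‖v‖ / 2`; as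
`∫ ‖f‖ > 0` (`f` is continuous and not zero) we get `T v ≠ 0`. `cv_equiv`: `cv_smul_left`.
-/

set_option autoImplicit false

open MeasureTheory Topology
open scoped ENNReal NNReal ComplexConjugate InnerProductSpace

namespace Pool.Agent.MPabcfcd.Har

variable {G X : Type} [Group G] [TopologicalSpace G] [IsTopologicalGroup G] [LocallyCompactSpace G]
  [T2Space G] [SecondCountableTopology G] [MeasurableSpace G] [BorelSpace G]
  [TopologicalSpace X] [LocallyCompactSpace X] [T2Space X] [SecondCountableTopology X]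
  [MeasurableSpace X] [BorelSpace X] [MulAction G X] [ContinuousSMul G X]
  {μ : Measure G} [μ.IsHaarMeasure] [μ.IsMulRightInvariant] [μ.IsInvInvariant]
  {m : Measure X} [IsFiniteMeasureOnCompacts m] [SMulInvariantMeasure G X m]

theorem exists_T_ne {L : Set G} {χ : G → ℂ} (hl : Loc μ m) (ho : OpenAct G X)
    (hχ : ∀ l ∈ L, ‖χ l‖ = 1) (hb : Bumps L χ) {v : Lp ℂ 2 m} (hv : v ≠ 0)
    (hvL : ∀ l ∈ L, tr m l v = χ l • v) :
    ∃ (f : G → ℂ) (T : Lp ℂ 2 m →L[ℂ] Lp ℂ 2 m), Continuous f ∧ HasCompactSupport f ∧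
      (∀ g, conj (f g⁻¹) = f g) ∧ (∀ l ∈ L, ∀ g, f (l⁻¹ * g) = χ l * f g) ∧ RepT μ m f T ∧
      (∀ W, IsInv G m W → ∀ φ ∈ W, T φ ∈ W) ∧ T v ≠ 0 := by
  have hv0 : 0 < ‖v‖ := norm_pos_iff.2 hv
  have hU : {g : G | ‖tr m g v - v‖ < ‖v‖ / 2} ∈ 𝓝 (1 : G) := by
    have h1 : Continuous fun g : G => ‖tr m g v - v‖ :=
      ((continuous_tr v).sub continuous_const).norm
    refine (isOpen_lt h1 continuous_const).mem_nhds ?_
    change ‖tr m (1 : G) v - v‖ < ‖v‖ / 2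
    rw [tr_one, sub_self, norm_zero]
    exact half_pos hv0
  obtain ⟨f, hf, hfc, hf0, hfa, hfL, hfg⟩ := hb _ hU
  obtain ⟨T, hT, hTi, hTW⟩ := exists_T (μ := μ) (m := m) hl ho hf hfc
  refine ⟨f, T, hf, hfc, hfa, hfL, hT, hTW, fun h0 => ?_⟩
  obtain ⟨g₀, hg₀⟩ : ∃ g, f g ≠ 0 := by
    by_contra hcon
    push Not at hcon
    exact hf0 (funext hcon)
  have hpos : 0 < ∫ g, ‖f g‖ ∂μ :=
    hf.norm.integral_pos_of_hasCompactSupport_nonneg_nonzero hfc.norm
      (fun g => norm_nonneg (f g)) (x := g₀) (norm_ne_zero_iff.2 hg₀)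
  have hi1 : Integrable (fun g => f g • tr m g v) μ :=
    (hf.smul (continuous_tr v)).integrable_of_hasCompactSupport hfc.smul_right
  have hi2 : Integrable (fun g => ‖f g‖) μ :=
    hf.norm.integrable_of_hasCompactSupport hfc.norm
  have hi3 : Integrable (fun g => ‖f g‖ • v) μ := hi2.smul_const v
  have hpt : ∀ g, ‖f g • tr m g v - ‖f g‖ • v‖ ≤ ‖f g‖ * (‖v‖ / 2) := by
    intro g
    by_cases hg : f g = 0
    · rw [hg, zero_smul, norm_zero, zero_smul, sub_zero, norm_zero, zero_mul]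
    · obtain ⟨u, hu, l, hlL, hgul, hfgl⟩ := hfg g hg
      have hχ0 : χ l ≠ 0 := by
        intro h
        have h1 := hχ l hlL
        rw [h, norm_zero] at h1
        exact zero_ne_one h1
      have h1 : f g • tr m g v = ‖f g‖ • tr m u v := by
        have h2 : tr m g v = χ l • tr m u v := by
          rw [hgul, tr_mul, hvL l hlL, map_smul]
        rw [h2, smul_smul]
        conv_lhs => rw [hfgl]
        rw [mul_assoc, inv_mul_cancel₀ hχ0, mul_one]
        exact Complex.coe_smul _ _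
      rw [h1, ← smul_sub, norm_smul, norm_norm]
      exact mul_le_mul_of_nonneg_left (le_of_lt hu) (norm_nonneg _)
  have h1 : ∫ g, (f g • tr m g v - ‖f g‖ • v) ∂μ = T v - (∫ g, ‖f g‖ ∂μ) • v := by
    rw [integral_sub hi1 hi3, ← hTi v, integral_smul_const]
  have h2 : ‖∫ g, (f g • tr m g v - ‖f g‖ • v) ∂μ‖ ≤ (∫ g, ‖f g‖ ∂μ) * (‖v‖ / 2) := by
    rw [← integral_mul_const]
    exact norm_integral_le_of_norm_le (hi2.mul_const _) (Filter.Eventually.of_forall hpt)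
  rw [h1, h0, zero_sub, norm_neg, norm_smul, Real.norm_of_nonneg hpos.le] at h2
  have h3 := le_of_mul_le_mul_left h2 hpos
  linarith

theorem cv_equiv {L : Set G} {χ : G → ℂ} {f : G → ℂ}
    (hfL : ∀ l ∈ L, ∀ g, f (l⁻¹ * g) = χ l * f g) (F : X → ℂ) (l : G) (h : l ∈ L) (x : X) :
    cv μ f F (l⁻¹ • x) = χ l * cv μ f F x := by
  rw [cv_smul_left]
  unfold cv
  rw [← integral_const_mul]
  refine integral_congr_ae (Filter.Eventually.of_forall fun g => ?_)
  change f (l⁻¹ * g) * F (g⁻¹ • x) = χ l * (f g * F (g⁻¹ • x))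
  rw [hfL l h, mul_assoc]

end Pool.Agent.MPabcfcd.Har
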