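import Mathlib

/-!
# Compact operators and irreducible subspaces

PROOF. `exists_eig`: the restriction of `T` to `W` is a nonzero compact self-adjoint operator of the
Hilbert space `W`, so it has a nonzero eigenvalue: the supremum of the Rayleigh quotient (of `T` or
of `-T`) is attained by compactness (`IsSelfAdjoint.hasEigenvector_of_isMaxOn` or the spectral
theorem for compact self-adjoint operators if Mathlib has it); eigenspaces of nonzero eigenvalues
of a compact operator are finite-dimensional (the closed unit ball is compact: on the eigenspace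
`id = c⁻¹ T`; `FiniteDimensional.of_isCompact_closedBall` or the Mathlib lemma on compact
operators).
`exists_irr`: let `c ≠ 0` be an eigenvalue of `T` on `W` and `E` the eigenspace in the whole space.
Among the `V ≤ W` in the family with `V ⊓ E ≠ ⊥` choose one with `finrank (V ⊓ E)` minimal
(`Nat.find` or `WellFounded.min`), let `v ≠ 0` be in `V ⊓ E`, and let `U` be the smallest member of
the family containing `v`; `U ≤ V`. Let `U' ≤ U` be in the family, `U'' = U ⊓ U'ᗮ`, also in the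
family. Write `v = a + b`, `a ∈ U'`, `b ∈ U''` (orthogonal projection onto the closed subspace `U'`;
`b = v - a ∈ U` as well). As `T` preserves both, `T a = c a` and `T b = c b`. If `a ≠ 0` then
`U' ⊓ E ≠ ⊥`, by minimality `finrank (U' ⊓ E) = finrank (V ⊓ E)`, so `U' ⊓ E = V ⊓ E` contains `v`
and `U ≤ U'`. If `a = 0` then `v = b ∈ U''`, so `U ≤ U''`, `U' ≤ U ≤ U'ᗮ` and `U' = ⊥`.
-/

set_option autoImplicit false

open MeasureTheory Topology
open scoped ENNReal NNReal ComplexConjugate InnerProductSpace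

namespace Pool.Agent.MPabcfcd.Har

variable {H : Type} [NormedAddCommGroup H] [InnerProductSpace ℂ H] [CompleteSpace H]

theorem exists_eig (T : H →L[ℂ] H) (hT : IsCompactOperator T)
    (hs : ∀ x y : H, ⟪T x, y⟫_ℂ = ⟪x, T y⟫_ℂ) (W : Submodule ℂ H) (hW : IsClosed (W : Set H))
    (hTW : ∀ x ∈ W, T x ∈ W) (h0 : ∃ x ∈ W, T x ≠ 0) :
    ∃ c : ℂ, c ≠ 0 ∧ (∃ x ∈ W, x ≠ 0 ∧ T x = c • x) ∧
      FiniteDimensional ℂ (LinearMap.ker ((T : H →ₗ[ℂ] H) - c • LinearMap.id)) := by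
  have hcW : CompleteSpace W := hW.completeSpace_coe
  obtain ⟨S, hSx⟩ : ∃ S : W →L[ℂ] W, S = T.restrict hTW := ⟨_, rfl⟩
  have hSa : ∀ x : W, ((S x : W) : H) = T x := fun x => by rw [hSx]; rfl
  have hS1 : IsCompactOperator S := by
    rw [hSx]
    exact hT.restrict' hTW
  have hS2 : (S : W →L[ℂ] W).IsSymmetric := by
    intro x y
    change ⟪((S x : W) : H), (y : H)⟫_ℂ = ⟪(x : H), ((S y : W) : H)⟫_ℂ
    rw [hSa, hSa, hs]
  have hS3 : S ≠ 0 := by
    rintro h
    obtain ⟨x, hx, hx0⟩ := h0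
    apply hx0
    have h1 := hSa ⟨x, hx⟩
    rw [h] at h1
    exact h1.symm
  have h2 := (ContinuousLinearMap.eq_zero_of_forall_hasEigenvalue_eq_zero hS1 hS2).not.mpr hS3
  push Not at h2
  obtain ⟨c, hc, hc0⟩ := h2
  obtain ⟨v, hv⟩ := hc.exists_hasEigenvector
  refine ⟨c, hc0, ⟨v, v.2, fun h => hv.2 (Subtype.ext h), ?_⟩, ?_⟩
  · have h3 : S v = c • v := hv.apply_eq_smul
    have h4 := congrArg (fun w : W => (w : H)) h3
    rw [← hSa v]
    exact h4
  · have h3 := ContinuousLinearMap.finite_dimensional_eigenspace hT c hc0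
    have h4 : Module.End.eigenspace (T : H →ₗ[ℂ] H) c =
        LinearMap.ker ((T : H →ₗ[ℂ] H) - c • LinearMap.id) := by
      ext x
      rw [Module.End.mem_eigenspace_iff, LinearMap.mem_ker, LinearMap.sub_apply,
        LinearMap.smul_apply, LinearMap.id_apply, sub_eq_zero]
    rw [← h4]
    exact h3

/-- A family of closed subspaces which is closed under intersections and orthogonal complements,
and preserved by a compact self-adjoint operator, has minimal members. -/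
theorem exists_irr (S : Submodule ℂ H → Prop) (hc : ∀ W, S W → IsClosed (W : Set H))
    (hi : ∀ W W', S W → S W' → S (W ⊓ W')) (ho : ∀ W, S W → S Wᗮ)
    (hg : ∀ v : H, ∃ W, S W ∧ v ∈ W ∧ ∀ W', S W' → v ∈ W' → W ≤ W')
    (T : H →L[ℂ] H) (hT : IsCompactOperator T) (hs : ∀ x y : H, ⟪T x, y⟫_ℂ = ⟪x, T y⟫_ℂ)
    (hTS : ∀ W, S W → ∀ x ∈ W, T x ∈ W) (W : Submodule ℂ H) (hW : S W)
    (h0 : ∃ x ∈ W, T x ≠ 0) :
    ∃ U : Submodule ℂ H, U ≤ W ∧ S U ∧ U ≠ ⊥ ∧ ∀ U', U' ≤ U → S U' → U' = ⊥ ∨ U' = U := by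
  obtain ⟨c, hc0, ⟨x0, hx0W, hx00, hx0T⟩, hfin⟩ := exists_eig T hT hs W (hc W hW) (hTS W hW) h0
  obtain ⟨E, hE⟩ : ∃ E : Submodule ℂ H, E = LinearMap.ker ((T : H →ₗ[ℂ] H) - c • LinearMap.id) :=
    ⟨_, rfl⟩
  have hEm : ∀ x, x ∈ E ↔ T x = c • x := by
    intro x
    rw [hE, LinearMap.mem_ker, LinearMap.sub_apply, LinearMap.smul_apply, LinearMap.id_apply,
      sub_eq_zero]
    rfl
  rw [← hE] at hfin
  have hne : ∀ V : Submodule ℂ H, ∀ a ∈ V, a ≠ 0 → T a = c • a → V ⊓ E ≠ ⊥ := by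
    intro V a ha ha0 haT h
    have h1 : a ∈ V ⊓ E := ⟨ha, (hEm a).mpr haT⟩
    rw [h] at h1
    exact ha0 ((Submodule.mem_bot ℂ).mp h1)
  have hex : ∃ n, ∃ V, V ≤ W ∧ S V ∧ V ⊓ E ≠ ⊥ ∧ Module.finrank ℂ ↥(V ⊓ E) = n :=
    ⟨_, W, le_rfl, hW, hne W x0 hx0W hx00 hx0T, rfl⟩
  classical
  obtain ⟨V, hVW, hV, hVE, hVn⟩ := Nat.find_spec hex
  have hmin : ∀ V', V' ≤ W → S V' → V' ⊓ E ≠ ⊥ →
      Module.finrank ℂ ↥(V ⊓ E) ≤ Module.finrank ℂ ↥(V' ⊓ E) := by
    intro V' h1 h2 h3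
    rw [hVn]
    exact Nat.find_min' hex ⟨V', h1, h2, h3, rfl⟩
  obtain ⟨v, hv, hv0⟩ := (Submodule.ne_bot_iff _).mp hVE
  obtain ⟨U, hU, hvU, hUmin⟩ := hg v
  have hUV : U ≤ V := hUmin V hV hv.1
  refine ⟨U, hUV.trans hVW, hU, fun h => ?_, fun U' hU'U hU' => ?_⟩
  · rw [h] at hvU
    exact hv0 ((Submodule.mem_bot ℂ).mp hvU)
  · have hcU' : CompleteSpace U' := (hc U' hU').completeSpace_coe
    obtain ⟨a, ha, b, hb, hab⟩ := U'.exists_add_mem_mem_orthogonal v
    have hbU : b ∈ U := by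
      have h1 : b = v - a := by rw [hab, add_sub_cancel_left]
      rw [h1]
      exact U.sub_mem hvU (hU'U ha)
    have hTa : T a ∈ U' := hTS U' hU' a ha
    have hTb : T b ∈ U'ᗮ := hTS _ (ho U' hU') b hb
    have hTv : T v = c • v := (hEm v).mp hv.2
    have h1 : T a - c • a = c • b - T b := by
      have h2 : T a + T b = c • a + c • b := by
        rw [← map_add, ← smul_add, ← hab, hTv]
      rw [sub_eq_sub_iff_add_eq_add, h2, add_comm]
    have h2 : T a = c • a := by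
      have h3 : T a - c • a ∈ U' := U'.sub_mem hTa (U'.smul_mem c ha)
      have h4 : T a - c • a ∈ U'ᗮ := by
        rw [h1]
        exact U'ᗮ.sub_mem (U'ᗮ.smul_mem c hb) hTb
      have h5 : T a - c • a ∈ U' ⊓ U'ᗮ := ⟨h3, h4⟩
      rw [Submodule.inf_orthogonal_eq_bot, Submodule.mem_bot] at h5
      exact sub_eq_zero.mp h5
    by_cases ha0 : a = 0
    · left
      have hvb : v ∈ U ⊓ U'ᗮ := by
        rw [hab, ha0, zero_add]
        exact ⟨hbU, hb⟩
      have h3 := (hUmin _ (hi U U'ᗮ hU (ho U' hU')) hvb).trans inf_le_right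
      have h4 : U' ≤ U' ⊓ U'ᗮ := le_inf le_rfl (hU'U.trans h3)
      rw [Submodule.inf_orthogonal_eq_bot] at h4
      exact le_bot_iff.mp h4
    · right
      have h3 := hmin U' (hU'U.trans (hUV.trans hVW)) hU' (hne U' a ha ha0 h2)
      have h4 : U' ⊓ E ≤ V ⊓ E := inf_le_inf_right E (hU'U.trans hUV)
      have h5 : U' ⊓ E = V ⊓ E := Submodule.eq_of_le_of_finrank_le h4 h3
      have h6 : v ∈ U' ⊓ E := by rw [h5]; exact hv
      exact le_antisymm hU'U (hUmin U' hU' h6.1)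

end Pool.Agent.MPabcfcd.Har
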