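import Pool.Agent.Lib.MP_abcfcd_nt.A.CvT

/-!
# Periods

PROOF. `cv_per`: Fubini for `(y, g) ↦ f g F(g⁻¹ j y) w y` (continuous, `y` in a compact space, `g`
in
the compact support of `f`). `continuous_per`: dominated convergence, or
`continuous_parametric_integral_of_continuous`. `exists_ker`: the set of the `φ` with
`∫ cv f φ (j y) w y = 0` for all `f ∈ C_c(G)` is a linear subspace by `cv_add`, `cv_smul`; it is
closed
since `φ ↦ ∫ cv f φ (j y) w y` is bounded by `M ‖φ‖ ∫ |w|` (`cv_bound` for the compact set `j(Y)`)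
and
linear; it is invariant: `cv f (tr g φ) = cv f (y ↦ φ (g⁻¹ y)) = cv (f (· g⁻¹)) φ` (`cv_congr`,
`tr_coe`, `cv_smul_right`). `ker_per`: if `F` is continuous with class `φ` in the kernel, then
`0 = ∫_Y cv f F (j y) w y = ∫_G f(g) per F g dg` for all `f ∈ C_c(G)`, and `per F` is continuous,
so it
vanishes (take `f` = a bump function times the conjugate of `per F`).
-/

set_option autoImplicit false

open MeasureTheory Topology
open scoped ENNReal NNReal ComplexConjugate InnerProductSpace

namespace Pool.Agent.MPabcfcd.Har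

variable {G X : Type} [Group G] [TopologicalSpace G] [IsTopologicalGroup G] [LocallyCompactSpace G]
  [T2Space G] [SecondCountableTopology G] [MeasurableSpace G] [BorelSpace G]
  [TopologicalSpace X] [LocallyCompactSpace X] [T2Space X] [SecondCountableTopology X]
  [MeasurableSpace X] [BorelSpace X] [MulAction G X] [ContinuousSMul G X]
  {μ : Measure G} [μ.IsHaarMeasure] [μ.IsMulRightInvariant] [μ.IsInvInvariant]
  {m : Measure X} [IsFiniteMeasureOnCompacts m] [SMulInvariantMeasure G X m]

theorem continuous_per (c : Cyc X) {F : X → ℂ} (hF : Continuous F) :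
    Continuous fun g : G => c.per F g := by
  have h1 : Continuous (Function.uncurry fun (g : G) (y : c.Y) => F (g⁻¹ • c.j y) * c.w y) := by
    refine Continuous.mul (hF.comp ?_) (c.hw.comp continuous_snd)
    exact continuous_fst.inv.smul (c.hj.comp continuous_snd)
  have h2 := continuous_parametric_integral_of_continuous (μ := c.ν) h1 (s := Set.univ)
    isCompact_univ
  have e : (fun g : G => c.per F g) =
      fun g : G => ∫ y in Set.univ, F (g⁻¹ • c.j y) * c.w y ∂c.ν := by
    funext g
    rw [Measure.restrict_univ]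
    rfl
  rw [e]
  exact h2

theorem cv_per (c : Cyc X) {f : G → ℂ} (hf : Continuous f) (hfc : HasCompactSupport f)
    {F : X → ℂ} (hF : Continuous F) :
    c.per (cv μ f F) (1 : G) = ∫ g, f g * c.per F g ∂μ := by
  have hcont : Continuous (Function.uncurry fun (y : c.Y) (g : G) =>
      f g * F (g⁻¹ • c.j y) * c.w y) := by
    refine ((hf.comp continuous_snd).mul (hF.comp ?_)).mul (c.hw.comp continuous_fst)
    exact continuous_snd.inv.smul (c.hj.comp continuous_fst)
  have hsub : tsupport (Function.uncurry fun (y : c.Y) (g : G) =>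
      f g * F (g⁻¹ • c.j y) * c.w y) ⊆ Set.univ ×ˢ tsupport f := by
    refine closure_minimal ?_ (isClosed_univ.prod (isClosed_tsupport f))
    rintro ⟨y, g⟩ hp
    refine ⟨Set.mem_univ _, subset_tsupport f ?_⟩
    intro h0
    refine hp ?_
    change f g * F (g⁻¹ • c.j y) * c.w y = 0
    have h0' : f g = 0 := h0
    rw [h0', zero_mul, zero_mul]
  have hsupp : HasCompactSupport (Function.uncurry fun (y : c.Y) (g : G) =>
      f g * F (g⁻¹ • c.j y) * c.w y) :=
    (isCompact_univ.prod hfc).of_isClosed_subset (isClosed_tsupport _) hsub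
  have hint : Integrable (Function.uncurry fun (y : c.Y) (g : G) =>
      f g * F (g⁻¹ • c.j y) * c.w y) (c.ν.prod μ) :=
    hcont.integrable_of_hasCompactSupport hsupp
  have e1 : c.per (cv μ f F) (1 : G) =
      ∫ y, ∫ g, f g * F (g⁻¹ • c.j y) * c.w y ∂μ ∂c.ν := by
    unfold Cyc.per
    refine integral_congr_ae (Filter.Eventually.of_forall fun y => ?_)
    change cv μ f F ((1 : G)⁻¹ • c.j y) * c.w y = ∫ g, f g * F (g⁻¹ • c.j y) * c.w y ∂μ
    rw [inv_one, one_smul]
    unfold cv
    rw [← integral_mul_const]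
  rw [e1, integral_integral_swap hint]
  refine integral_congr_ae (Filter.Eventually.of_forall fun g => ?_)
  change ∫ y, f g * F (g⁻¹ • c.j y) * c.w y ∂c.ν = f g * c.per F g
  unfold Cyc.per
  rw [← integral_const_mul]
  refine integral_congr_ae (Filter.Eventually.of_forall fun y => ?_)
  exact mul_assoc _ _ _

private theorem per_one (c : Cyc X) (F : X → ℂ) :
    c.per F (1 : G) = ∫ y, F (c.j y) * c.w y ∂c.ν := by
  unfold Cyc.per
  refine integral_congr_ae (Filter.Eventually.of_forall fun y => ?_)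
  change F ((1 : G)⁻¹ • c.j y) * c.w y = F (c.j y) * c.w y
  rw [inv_one, one_smul]

private theorem per_int (c : Cyc X) {F : X → ℂ} (hF : Continuous F) :
    Integrable (fun y => F (c.j y) * c.w y) c.ν :=
  ((hF.comp c.hj).mul c.hw).integrable_of_hasCompactSupport
    (isCompact_univ.of_isClosed_subset (isClosed_tsupport _) (Set.subset_univ _))

/-- The period of the convolution is a continuous linear functional. -/
private theorem exists_functional (hl : Loc μ m) (ho : OpenAct G X) (c : Cyc X) {f : G → ℂ}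
    (hf : Continuous f) (hfc : HasCompactSupport f) :
    ∃ L : Lp ℂ 2 m →L[ℂ] ℂ, ∀ φ : Lp ℂ 2 m, L φ = c.per (cv μ f φ) (1 : G) := by
  obtain ⟨M, hM, hb⟩ := cv_bound hl hf hfc (isCompact_range c.hj)
  have hadd : ∀ φ ψ : Lp ℂ 2 m, c.per (cv μ f (φ + ψ : Lp ℂ 2 m)) (1 : G) =
      c.per (cv μ f φ) (1 : G) + c.per (cv μ f ψ) (1 : G) := by
    intro φ ψ
    rw [per_one, per_one, per_one,
      ← integral_add (per_int c (continuous_cv hl ho hf hfc φ))
        (per_int c (continuous_cv hl ho hf hfc ψ))]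
    refine integral_congr_ae (Filter.Eventually.of_forall fun y => ?_)
    change cv μ f (φ + ψ : Lp ℂ 2 m) (c.j y) * c.w y =
      cv μ f φ (c.j y) * c.w y + cv μ f ψ (c.j y) * c.w y
    rw [cv_add hl hf hfc, add_mul]
  have hsmul : ∀ (a : ℂ) (φ : Lp ℂ 2 m), c.per (cv μ f (a • φ : Lp ℂ 2 m)) (1 : G) =
      a * c.per (cv μ f φ) (1 : G) := by
    intro a φ
    rw [per_one, per_one, ← integral_const_mul]
    refine integral_congr_ae (Filter.Eventually.of_forall fun y => ?_)
    change cv μ f (a • φ : Lp ℂ 2 m) (c.j y) * c.w y = a * (cv μ f φ (c.j y) * c.w y)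
    rw [cv_smul hl hfc, mul_assoc]
  let L0 : Lp ℂ 2 m →ₗ[ℂ] ℂ :=
    { toFun := fun φ => c.per (cv μ f φ) (1 : G)
      map_add' := hadd
      map_smul' := hsmul }
  refine ⟨L0.mkContinuous (M * ∫ y, ‖c.w y‖ ∂c.ν) fun φ => ?_, fun φ => rfl⟩
  change ‖c.per (cv μ f φ) (1 : G)‖ ≤ M * (∫ y, ‖c.w y‖ ∂c.ν) * ‖φ‖
  rw [per_one]
  have hwi : Integrable (fun y => M * ‖φ‖ * ‖c.w y‖) c.ν :=
    (c.hw.norm.integrable_of_hasCompactSupport
      (isCompact_univ.of_isClosed_subset (isClosed_tsupport _) (Set.subset_univ _))).const_mul _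
  calc ‖∫ y, cv μ f φ (c.j y) * c.w y ∂c.ν‖ ≤ ∫ y, M * ‖φ‖ * ‖c.w y‖ ∂c.ν := by
        refine norm_integral_le_of_norm_le hwi (Filter.Eventually.of_forall fun y => ?_)
        rw [norm_mul]
        exact mul_le_mul_of_nonneg_right (hb φ _ (Set.mem_range_self y)) (norm_nonneg _)
    _ = M * (∫ y, ‖c.w y‖ ∂c.ν) * ‖φ‖ := by
        rw [integral_const_mul]
        ring

/-- The kernel of a period. -/
theorem exists_ker (hl : Loc μ m) (ho : OpenAct G X) (c : Cyc X) :
    ∃ K : Submodule ℂ (Lp ℂ 2 m), IsInv G m K ∧ ∀ φ : Lp ℂ 2 m, φ ∈ K ↔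
      ∀ f : G → ℂ, Continuous f → HasCompactSupport f → c.per (cv μ f φ) (1 : G) = 0 := by
  choose L hL using fun f : {f : G → ℂ // Continuous f ∧ HasCompactSupport f} =>
    exists_functional hl ho c f.2.1 f.2.2
  have hmem : ∀ φ : Lp ℂ 2 m, φ ∈ (⨅ f, LinearMap.ker (L f : Lp ℂ 2 m →ₗ[ℂ] ℂ)) ↔
      ∀ f : G → ℂ, Continuous f → HasCompactSupport f → c.per (cv μ f φ) (1 : G) = 0 := by
    intro φ
    rw [Submodule.mem_iInf]
    constructor
    · intro h f hf hfc
      rw [← hL ⟨f, hf, hfc⟩ φ]
      exact h ⟨f, hf, hfc⟩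
    · intro h f
      rw [LinearMap.mem_ker]
      exact (hL f φ).trans (h f.1 f.2.1 f.2.2)
  refine ⟨⨅ f, LinearMap.ker (L f : Lp ℂ 2 m →ₗ[ℂ] ℂ), ⟨?_, ?_⟩, hmem⟩
  · rw [Submodule.coe_iInf]
    exact isClosed_iInter fun f => (L f).isClosed_ker
  · intro g φ hφ
    rw [hmem] at hφ ⊢
    intro f hf hfc
    have h1 := hφ (fun a => f (a * g⁻¹)) (hf.comp (continuous_mul_const g⁻¹))
      (hfc.comp_homeomorph (Homeomorph.mulRight g⁻¹))
    rw [per_one] at h1 ⊢
    rw [← h1]
    refine integral_congr_ae (Filter.Eventually.of_forall fun y => ?_)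
    change cv μ f (tr m g φ) (c.j y) * c.w y = cv μ (fun a => f (a * g⁻¹)) φ (c.j y) * c.w y
    rw [cv_congr hl hfc (tr_coe g φ), cv_smul_right]

theorem ker_per (hl : Loc μ m) (c : Cyc X) {φ : Lp ℂ 2 m}
    (hφ : ∀ f : G → ℂ, Continuous f → HasCompactSupport f → c.per (cv μ f φ) (1 : G) = 0)
    {F : X → ℂ} (hF : Continuous F) (h : φ =ᵐ[m] F) (g : G) : c.per F g = 0 := by
  by_contra hne
  have hP : Continuous fun g : G => c.per F g := continuous_per c hF
  obtain ⟨b, hb1, -, hbc, hb0⟩ := exists_continuous_one_zero_of_isCompact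
    (isCompact_singleton (x := g)) (isClosed_empty (X := G)) (Set.disjoint_empty _)
  have hbg : b g = 1 := hb1 (Set.mem_singleton g)
  have hfcont : Continuous fun a : G => (b a : ℂ) * conj (c.per F a) :=
    (Complex.continuous_ofReal.comp b.continuous).mul (Complex.continuous_conj.comp hP)
  have hfsupp : HasCompactSupport fun a : G => (b a : ℂ) * conj (c.per F a) := by
    refine hbc.mono fun a ha => ?_
    intro h0
    refine ha ?_
    have h0' : b a = 0 := h0
    change (b a : ℂ) * conj (c.per F a) = 0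
    rw [h0', Complex.ofReal_zero, zero_mul]
  have h1 := hφ _ hfcont hfsupp
  have h2 : c.per (cv μ (fun a : G => (b a : ℂ) * conj (c.per F a)) φ) (1 : G) =
      c.per (cv μ (fun a : G => (b a : ℂ) * conj (c.per F a)) F) (1 : G) := by
    rw [per_one, per_one]
    refine integral_congr_ae (Filter.Eventually.of_forall fun y => ?_)
    change cv μ _ φ (c.j y) * c.w y = cv μ _ F (c.j y) * c.w y
    rw [cv_congr hl hfsupp h]
  rw [h2, cv_per c hfcont hfsupp hF] at h1
  have h3 : ∀ a : G, (b a : ℂ) * conj (c.per F a) * c.per F a =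
      ((b a * Complex.normSq (c.per F a) : ℝ) : ℂ) := by
    intro a
    rw [mul_assoc, Complex.ofReal_mul, ← Complex.normSq_eq_conj_mul_self]
  have h4 : ∫ a, ((b a * Complex.normSq (c.per F a) : ℝ) : ℂ) ∂μ = 0 := by
    rw [← h1]
    exact integral_congr_ae (Filter.Eventually.of_forall fun a => (h3 a).symm)
  have h5 : ∫ a, b a * Complex.normSq (c.per F a) ∂μ = 0 := by
    have h7 := integral_complex_ofReal (μ := μ) (f := fun a => b a * Complex.normSq (c.per F a))
    exact Complex.ofReal_eq_zero.1 (h7.symm.trans h4)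
  have h6 : 0 < ∫ a, b a * Complex.normSq (c.per F a) ∂μ := by
    refine Continuous.integral_pos_of_hasCompactSupport_nonneg_nonzero (x := g)
      (b.continuous.mul (Complex.continuous_normSq.comp hP)) hbc.mul_right ?_ ?_
    · intro a
      exact mul_nonneg (hb0 a).1 (Complex.normSq_nonneg _)
    · change b g * Complex.normSq (c.per F g) ≠ 0
      rw [hbg, one_mul]
      exact fun h0 => hne (Complex.normSq_eq_zero.1 h0)
  exact absurd h5 h6.ne'

end Pool.Agent.MPabcfcd.Har
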