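import Pool.Agent.Lib.MP_abcfcd_nt.A.Cpt
import Pool.Agent.Lib.MP_abcfcd_nt.A.Per
import Pool.Agent.Lib.MP_abcfcd_nt.A.Eqv
import Pool.Agent.Lib.MP_abcfcd_nt.A.Irr

/-!
# An irreducible subspace with two nonzero periods

PROOF. Let `Pb : Lp` be the class of `conj P` (continuous with compact support, so in `L²`). It
satisfies `tr m l Pb = χ l • Pb` for `l ∈ L` (`hPL`, `‖χ l‖ = 1`). Let `K2` be the kernel of `c2`
(`exists_ker`) and `W = gen Pb ⊓ K2ᗮ`, a closed invariant subspace. `Pb ∉ K2` by `ker_per` and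
`h2`, so
`W ≠ ⊥` (the projection of `Pb` on `K2ᗮ` is in `gen Pb` as well: `gen Pb ⊓ K2` and its complement;
or:
if `W = ⊥` then, with the decomposition `Pb = a + b`, `a ∈ K2`, `b ∈ K2ᗮ`, ... simplest: let
`N = gen Pb ⊓ K2`, a closed invariant subspace, `q` the projection of `Pb` on `N`, `b = Pb - q ∈
gen Pb ⊓ Nᗮ`; `b ≠ 0` since `Pb ∉ K2`. Use `W = gen Pb ⊓ Nᗮ` instead of the above.)
Let `p ∈ W` be the projection of `Pb` (`exists_proj`): `p ≠ 0`, `tr m l p = χ l • p`. `exists_T_ne`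
gives
a function `f` and an operator `T`, compact by `compact_T`, self-adjoint by `inner_T` (`conj f(g⁻¹)
=
f g`), which preserves the closed invariant subspaces, with `T p ≠ 0`. `exists_irr` with the family
`IsInv G m` (`isInv_inf`, `isInv_orth`, `isInv_gen`, `gen_le`) gives `π ≤ W`, minimal.
First period: `Pb` is not orthogonal to `π`: otherwise all translates of `Pb` are orthogonal to `π`
(`inner_tr`), so `gen Pb ⊥ π ≤ gen Pb`, `π = ⊥`. Let `φ ∈ π`, `⟪Pb, φ⟫ ≠ 0`; `⟪Pb, φ⟫ = ∫ P φ =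
c1.per (cv f1 φ) 1` by `hP`. So `F = cv f1 φ` is continuous and its class `T1 φ` (`exists_T`) is in
`π`.
Second period: `π ≤ Nᗮ` and `π ≠ ⊥`, `π ≤ gen Pb`, so `π` is not contained in `K2` (otherwise
`π ≤ N ⊓ Nᗮ`); by `exists_ker` there are `φ ∈ π` and `f` with `c2.per (cv f φ) 1 ≠ 0`.
The vector `v`: let `p'` be the projection of `Pb` on `π`, `p' ≠ 0`, and `f'`, `T'` from
`exists_T_ne` for
`p'`; `v = cv f' p'` is continuous, `v (l⁻¹ x) = χ l v x` (`cv_equiv`), its class `T' p'` is in `π`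
and
not zero, so `gen (T' p') = π`. If a period `c3` does not vanish on a continuous function with
class in
`π`, then `π` is not contained in the kernel `K3` of `c3` (`ker_per`), so `T' p' ∉ K3` (otherwise
`π = gen (T' p') ≤ K3`), and there is `f` with `c3.per (cv f (T' p')) 1 ≠ 0`; by `cv_congr` and
`cv_per` this is `∫ f g * c3.per v g`, so `c3.per v g ≠ 0` for some `g`.
-/

set_option autoImplicit false

open MeasureTheory Topology
open scoped ENNReal NNReal ComplexConjugate InnerProductSpace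

namespace Pool.Agent.MPabcfcd.Har

variable {G X : Type} [Group G] [TopologicalSpace G] [IsTopologicalGroup G] [LocallyCompactSpace G]
  [T2Space G] [SecondCountableTopology G] [MeasurableSpace G] [BorelSpace G]
  [TopologicalSpace X] [LocallyCompactSpace X] [T2Space X] [SecondCountableTopology X]
  [MeasurableSpace X] [BorelSpace X] [MulAction G X] [ContinuousSMul G X]
  {μ : Measure G} [μ.IsHaarMeasure] [μ.IsMulRightInvariant] [μ.IsInvInvariant]
  {m : Measure X} [IsFiniteMeasureOnCompacts m] [SMulInvariantMeasure G X m]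

theorem main_abs (hl : Loc μ m) (ho : OpenAct G X) {L : Set G} (hL : IsCompact L) {χ : G → ℂ}
    (hχ : ∀ l ∈ L, ‖χ l‖ = 1) (hcusp : Cusp X L χ) (hb : Bumps L χ) (c1 c2 : Cyc X)
    {P : X → ℂ} (hPc : Continuous P) (hPs : HasCompactSupport P) {f1 : G → ℂ}
    (hf1 : Continuous f1) (hf1c : HasCompactSupport f1)
    (hP : ∀ φ : Lp ℂ 2 m, ∫ x, P x * φ x ∂m = c1.per (cv μ f1 φ) (1 : G))
    (hPL : ∀ l ∈ L, ∀ x, P (l⁻¹ • x) = (χ l)⁻¹ * P x)
    (h2 : c2.per (fun x => conj (P x)) (1 : G) ≠ 0) :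
    ∃ π : Submodule ℂ (Lp ℂ 2 m), IsInv G m π ∧ π ≠ ⊥ ∧
      (∀ σ, σ ≤ π → IsInv G m σ → σ = ⊥ ∨ σ = π) ∧
      (∃ F : X → ℂ, Continuous F ∧ (∃ φ ∈ π, φ =ᵐ[m] F) ∧ c1.per F (1 : G) ≠ 0) ∧
      (∃ F : X → ℂ, Continuous F ∧ (∃ φ ∈ π, φ =ᵐ[m] F) ∧ c2.per F (1 : G) ≠ 0) ∧
      ∃ v : X → ℂ, Continuous v ∧ (∀ l ∈ L, ∀ x, v (l⁻¹ • x) = χ l * v x) ∧
        ∀ c3 : Cyc X, (∃ F : X → ℂ, Continuous F ∧ (∃ φ ∈ π, φ =ᵐ[m] F) ∧
          ∃ g : G, c3.per F g ≠ 0) → ∃ g : G, c3.per v g ≠ 0 := by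
  -- the class of the conjugate of `P`
  have hcc : Continuous fun x => conj (P x) := Complex.continuous_conj.comp hPc
  have hcs : HasCompactSupport fun x => conj (P x) :=
    hPs.comp_left (g := fun z : ℂ => conj z) (map_zero _)
  have hmem : MemLp (fun x => conj (P x)) 2 m := hcc.memLp_of_hasCompactSupport hcs
  set Pb : Lp ℂ 2 m := hmem.toLp _ with hPb
  have hPbe : Pb =ᵐ[m] fun x => conj (P x) := hmem.coeFn_toLp
  have hPbL : ∀ l ∈ L, tr m l Pb = χ l • Pb := by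
    intro l hl'
    symm
    apply tr_eq_of
    have e1 : (fun x => Pb (l⁻¹ • x)) =ᵐ[m] fun x => conj (P (l⁻¹ • x)) :=
      (measurePreserving_smul l⁻¹ m).quasiMeasurePreserving.ae_eq_comp hPbe
    have hn : conj (χ l) * χ l = 1 := by
      rw [mul_comm, Complex.mul_conj, Complex.normSq_eq_norm_sq, hχ l hl']
      simp
    have hinv : (conj (χ l))⁻¹ = χ l := inv_eq_of_mul_eq_one_right hn
    filter_upwards [e1, hPbe, Lp.coeFn_smul (χ l) Pb] with x h1 h2' h3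
    rw [h1, h3, Pi.smul_apply, h2', hPL l hl', map_mul, map_inv₀, hinv, smul_eq_mul]
  obtain ⟨K2, hK2i, hK2⟩ := exists_ker (μ := μ) (m := m) hl ho c2
  have hPbK : Pb ∉ K2 := fun h => h2 (ker_per (μ := μ) hl c2 ((hK2 Pb).1 h) hcc hPbe 1)
  have hgen := isInv_gen (G := G) (m := m) Pb
  set N := gen G m Pb ⊓ K2 with hN
  have hNi : IsInv G m N := isInv_inf hgen hK2i
  set W := gen G m Pb ⊓ Nᗮ with hWdef
  have hWi : IsInv G m W := isInv_inf hgen (isInv_orth hNi)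
  have hWne : W ≠ ⊥ := by
    obtain ⟨q, hq, hq', -, -⟩ := exists_proj hNi Pb
    intro hW0
    have hb1 : Pb - q ∈ W :=
      ⟨Submodule.sub_mem _ (mem_gen Pb) hq.1, hq'⟩
    rw [hW0, Submodule.mem_bot, sub_eq_zero] at hb1
    exact hPbK (hb1 ▸ hq.2)
  obtain ⟨p, hp, -, hp0, hpL⟩ := exists_proj hWi Pb
  have hp0' : p ≠ 0 := hp0 inf_le_left hWne
  have hpL' : ∀ l ∈ L, tr m l p = χ l • p := fun l hl' => hpL l (χ l) (hPbL l hl')
  obtain ⟨f, T, hf, hfc, hfs, hfL, hT, hTi, hTp⟩ := exists_T_ne (μ := μ) hl ho hχ hb hp0' hpL'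
  have hTc : IsCompactOperator T := compact_T hl ho hL hχ hcusp hf hfc hfL hT
  have hTs : ∀ x y : Lp ℂ 2 m, ⟪T x, y⟫_ℂ = ⟪x, T y⟫_ℂ := by
    have hfe : (fun g => conj (f g⁻¹)) = f := funext hfs
    have hT' : RepT μ m (fun g => conj (f g⁻¹)) T := by
      rw [hfe]
      exact hT
    exact fun x y => inner_T hl ho hf hfc hT hT' x y
  obtain ⟨π, hπW, hπi, hπ0, hπm⟩ := exists_irr (fun V : Submodule ℂ (Lp ℂ 2 m) => IsInv G m V)
    (fun V hV => hV.closed) (fun V V' hV hV' => isInv_inf hV hV') (fun V hV => isInv_orth hV)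
    (fun v => ⟨gen G m v, isInv_gen v, mem_gen v, fun V hV hv => gen_le hV hv⟩) T hTc hTs hTi W hWi
    ⟨p, hp, hTp⟩
  have hπg : π ≤ gen G m Pb := hπW.trans inf_le_left
  obtain ⟨p', hp', hp'o, hp'0, hp'L⟩ := exists_proj hπi Pb
  have hp'n : p' ≠ 0 := hp'0 hπg hπ0
  have hp'L' : ∀ l ∈ L, tr m l p' = χ l • p' := fun l hl' => hp'L l (χ l) (hPbL l hl')
  refine ⟨π, hπi, hπ0, hπm, ?_, ?_, ?_⟩
  · -- the first period
    obtain ⟨T1, hT1, -, hT1i⟩ := exists_T (m := m) hl ho hf1 hf1c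
    refine ⟨cv μ f1 p', continuous_cv hl ho hf1 hf1c p', ⟨T1 p', hT1i π hπi p' hp', hT1 p'⟩, ?_⟩
    rw [← hP p']
    have e1 : ⟪Pb, p'⟫_ℂ = ∫ x, P x * p' x ∂m := by
      rw [L2.inner_def]
      apply integral_congr_ae
      filter_upwards [hPbe] with x hx
      rw [hx, RCLike.inner_apply, RCLike.conj_conj]
      ring
    have e2 : ⟪Pb, p'⟫_ℂ = ⟪p', p'⟫_ℂ := by
      have h3 : ⟪Pb - p', p'⟫_ℂ = 0 := Submodule.inner_left_of_mem_orthogonal hp' hp'o
      rw [inner_sub_left, sub_eq_zero] at h3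
      exact h3
    rw [← e1, e2]
    exact inner_self_ne_zero.mpr hp'n
  · -- the second period
    have hnot : ¬ π ≤ K2 := by
      intro hle
      apply hπ0
      rw [Submodule.eq_bot_iff]
      intro x hx
      have h3 : x ∈ N := ⟨hπg hx, hle hx⟩
      have h4 : x ∈ Nᗮ := (hπW hx).2
      have h5 : ⟪x, x⟫_ℂ = 0 := Submodule.inner_right_of_mem_orthogonal h3 h4
      exact inner_self_eq_zero.mp h5
    obtain ⟨φ, hφ, hφK⟩ := Set.not_subset.mp hnot
    have hφK' : ¬ ∀ f : G → ℂ, Continuous f → HasCompactSupport f →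
        c2.per (cv μ f φ) (1 : G) = 0 := fun h => hφK ((hK2 φ).2 h)
    push Not at hφK'
    obtain ⟨f2, hf2, hf2c, hne⟩ := hφK'
    obtain ⟨T2, hT2, -, hT2i⟩ := exists_T (m := m) hl ho hf2 hf2c
    exact ⟨cv μ f2 φ, continuous_cv hl ho hf2 hf2c φ, ⟨T2 φ, hT2i π hπi φ hφ, hT2 φ⟩, hne⟩
  · -- the vector `v`
    obtain ⟨f', T', hf', hfc', -, hfL', hT', hTi', hTp'⟩ :=
      exists_T_ne (μ := μ) hl ho hχ hb hp'n hp'L'
    have hvc : Continuous (cv μ f' p') := continuous_cv hl ho hf' hfc' p'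
    refine ⟨cv μ f' p', hvc, fun l hl' x => cv_equiv hfL' p' l hl' x, ?_⟩
    have hTm : T' p' ∈ π := hTi' π hπi p' hp'
    have hgπ : gen G m (T' p') = π := by
      rcases hπm _ (gen_le hπi hTm) (isInv_gen (T' p')) with h3 | h3
      · exfalso
        have h4 := mem_gen (G := G) (m := m) (T' p')
        rw [h3, Submodule.mem_bot] at h4
        exact hTp' h4
      · exact h3
    rintro c3 ⟨F, hF, ⟨φ, hφ, hφF⟩, g, hg⟩
    obtain ⟨K3, hK3i, hK3⟩ := exists_ker (μ := μ) (m := m) hl ho c3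
    have hφK : φ ∉ K3 := fun h => hg (ker_per (μ := μ) hl c3 ((hK3 φ).1 h) hF hφF g)
    have hTK : T' p' ∉ K3 := by
      intro h
      apply hφK
      have h3 : gen G m (T' p') ≤ K3 := gen_le hK3i h
      rw [hgπ] at h3
      exact h3 hφ
    have hTK' : ¬ ∀ f : G → ℂ, Continuous f → HasCompactSupport f →
        c3.per (cv μ f (T' p')) (1 : G) = 0 := fun h => hTK ((hK3 (T' p')).2 h)
    push Not at hTK'
    obtain ⟨f3, hf3, hf3c, hne⟩ := hTK'
    by_contra hall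
    push Not at hall
    apply hne
    have e1 : cv μ f3 (T' p') = cv μ f3 (cv μ f' p') := by
      funext x
      exact cv_congr hl hf3c (hT' p') x
    rw [e1, cv_per c3 hf3 hf3c hvc]
    have e2 : (fun g : G => f3 g * c3.per (cv μ f' p') g) = fun _ => 0 := by
      funext g
      rw [hall g, mul_zero]
    rw [e2, integral_zero]

end Pool.Agent.MPabcfcd.Har
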