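import Pool.Agent.Lib.MP_abcfcd_nt.A.Basic

/-!
# Translations on `L²(X)`

PROOF. `tr_coe`: `Lp.coeFn_compMeasurePreserving`. `tr_eq_of`: both sides are almost everywhere
equal. `tr_mul`: `(g h)⁻¹ • x = h⁻¹ • g⁻¹ • x` and `tr_coe` composed with the quasi measure
preserving map `x ↦ g⁻¹ • x`. `inner_tr`: `tr m g⁻¹` is an isometry, so it preserves the inner
product (`LinearIsometry.inner_map_map`), and `tr m g⁻¹ (tr m g φ) = φ`. `continuous_tr`: the
theorem `Filter.Tendsto.compMeasurePreservingLp` of Mathlib (continuity of the composition with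
measure preserving maps for the compact open topology), applied to the continuous map
`g ↦ (x ↦ g⁻¹ • x) : C(X, X)` (`ContinuousMap.curry`).
-/

set_option autoImplicit false

open MeasureTheory Topology
open scoped ENNReal NNReal ComplexConjugate InnerProductSpace

namespace Pool.Agent.MPabcfcd.Har

variable {G X : Type} [Group G] [TopologicalSpace G] [IsTopologicalGroup G] [LocallyCompactSpace G]
  [T2Space G] [SecondCountableTopology G] [MeasurableSpace G] [BorelSpace G]
  [TopologicalSpace X] [LocallyCompactSpace X] [T2Space X] [SecondCountableTopology X]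
  [MeasurableSpace X] [BorelSpace X] [MulAction G X] [ContinuousSMul G X]
  {μ : Measure G} [μ.IsHaarMeasure] [μ.IsMulRightInvariant] [μ.IsInvInvariant]
  {m : Measure X} [IsFiniteMeasureOnCompacts m] [SMulInvariantMeasure G X m]

theorem tr_coe (g : G) (φ : Lp ℂ 2 m) : tr m g φ =ᵐ[m] fun x => φ (g⁻¹ • x) :=
  Lp.coeFn_compMeasurePreserving φ (measurePreserving_smul g⁻¹ m)

theorem tr_eq_of (g : G) (φ φ' : Lp ℂ 2 m) (h : φ' =ᵐ[m] fun x => φ (g⁻¹ • x)) :
    φ' = tr m g φ :=
  Lp.ext (h.trans (tr_coe (m := m) g φ).symm)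

theorem tr_one (φ : Lp ℂ 2 m) : tr m (1 : G) φ = φ := by
  refine (tr_eq_of (m := m) (1 : G) φ φ ?_).symm
  refine Filter.Eventually.of_forall fun x => ?_
  simp

theorem tr_mul (g h : G) (φ : Lp ℂ 2 m) : tr m (g * h) φ = tr m g (tr m h φ) := by
  refine (tr_eq_of (m := m) (g * h) φ (tr m g (tr m h φ)) ?_).symm
  have h1 := tr_coe (m := m) g (tr m h φ)
  have h2 := (measurePreserving_smul g⁻¹ m).quasiMeasurePreserving.ae_eq_comp
    (tr_coe (m := m) h φ)
  filter_upwards [h1, h2] with x hx1 hx2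
  rw [hx1]
  simp only [Function.comp_apply] at hx2
  rw [hx2, mul_inv_rev, mul_smul]

theorem inner_tr (g : G) (φ ψ : Lp ℂ 2 m) : ⟪tr m g φ, ψ⟫_ℂ = ⟪φ, tr m g⁻¹ ψ⟫_ℂ := by
  have h := LinearIsometry.inner_map_map (tr m g⁻¹) (tr m g φ) ψ
  rw [← tr_mul, inv_mul_cancel, tr_one] at h
  exact h.symm

theorem continuous_tr (φ : Lp ℂ 2 m) : Continuous fun g : G => tr m g φ := by
  have hc : Continuous fun q : G × X => q.1⁻¹ • q.2 :=
    (continuous_fst.inv).smul continuous_snd
  let F : C(G × X, X) := ⟨fun q => q.1⁻¹ • q.2, hc⟩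
  have hg : Continuous fun g : G => F.curry g := F.curry.continuous
  have h := Continuous.compMeasurePreservingLp (E := ℂ) (p := 2) (μ := m) (ν := m)
    (f := fun _ : G => φ) (g := fun g : G => F.curry g) continuous_const hg
    (fun g => measurePreserving_smul g⁻¹ m) (by norm_num)
  exact h

end Pool.Agent.MPabcfcd.Har
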